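import Pool.Agent.Run7.h460.QD.Ifc

/-!
# The cube-free part of a product with a cube
-/

set_option autoImplicit false

open scoped Classical

namespace Run7.h460.QD.Q

theorem U_cube {b : ℕ} : U (b ^ 3) = 0 := by
  ext p
  rw [U_apply, Nat.factorization_pow, Finsupp.smul_apply, smul_eq_mul]
  push_cast
  have : (3 : ZMod 3) = 0 := by decide
  rw [this, zero_mul]
  rfl

theorem cf_mul_cube {a b : ℕ} (ha : a ≠ 0) (hb : b ≠ 0) : cf (a * b ^ 3) = cf a := by
  rw [← nv_U, ← nv_U, U_mul ha (pow_ne_zero 3 hb), U_cube, add_zero]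

end Run7.h460.QD.Q
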