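import Pool.Agent.Run7.h460.JL.Mix

/-!
# Mixing with an explicit number of exceptions

`mixN` is the second moment argument of `Run7/h460/JL/Mix.lean` (after helper428) for finitely many events:
if `N > 4 / ε²` events of density `p` are asymptotically independent in pairs, then one of them meets
the set `A` of upper density `δ` in a set of upper density at least `p δ - ε`. Applied to the translates of a
pattern (`Law.exc`): at most `4 |R|² / ε²` translates are exceptional, whatever the set `A` is.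
`Law.sub`: every infinite set of translates contains a sequence along which all patterns on the
nonempty finite sums meet `A` in a set of positive upper density.
-/

set_option autoImplicit false

open scoped Classical

namespace Run7.h460.QD

open Finset Filter Topology
open Run7.h460.JL.Mix

section mix

variable {α : Type*}

/-- **Mixing.** -/
theorem mixN {S : ℕ → Finset α} (hS : ∀ᶠ X in atTop, (S X).Nonempty) {P : ℕ → Set α} {p : ℝ}
    (hp0 : 0 ≤ p) (hp1 : p ≤ 1) {N : ℕ}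
    (h1 : ∀ i < N, Tendsto (fun X => cn (S X) (P i) / ((S X).card : ℝ)) atTop (𝓝 p))
    (h2 : ∀ i < N, ∀ j < N, i ≠ j →
      Tendsto (fun X => cn (S X) (P i ∩ P j) / ((S X).card : ℝ)) atTop (𝓝 (p * p)))
    {A : Set α} {δ : ℝ} (hA : UD S A δ) {ε : ℝ} (hε : 0 < ε) (hN : 4 / ε ^ 2 < N) :
    ∃ i < N, UD S (A ∩ P i) (p * δ - ε) := by
  by_contra hcon
  push Not at hcon
  have hN0 : (0 : ℝ) < N := lt_trans (by positivity) hN
  -- the second moment
  have hlim : Tendsto (fun X => (∑ D ∈ S X, (p * N - ff P N D) ^ 2) / ((S X).card : ℝ)) atTop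
      (𝓝 (p ^ 2 * N ^ 2 - 2 * (p * N) * ∑ i ∈ range N, p +
        ∑ i ∈ range N, ∑ j ∈ range N, if i = j then p else p * p)) := by
    have e : (fun X => p ^ 2 * N ^ 2 -
        2 * (p * N) * ∑ i ∈ range N, cn (S X) (P i) / ((S X).card : ℝ) +
        ∑ i ∈ range N, ∑ j ∈ range N, cn (S X) (P i ∩ P j) / ((S X).card : ℝ)) =ᶠ[atTop]
        fun X => (∑ D ∈ S X, (p * N - ff P N D) ^ 2) / ((S X).card : ℝ) := by
      filter_upwards [hS] with X hX
      have hc : (0 : ℝ) < ((S X).card : ℝ) := by exact_mod_cast hX.card_pos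
      rw [second_moment]
      simp only [← sum_div]
      field_simp
    refine Tendsto.congr' e ?_
    refine (tendsto_const_nhds.sub (tendsto_const_nhds.mul
      (tendsto_finsetSum _ fun i hi => h1 i (mem_range.1 hi)))).add
      (tendsto_finsetSum _ fun i hi => tendsto_finsetSum _ fun j hj => ?_)
    by_cases hij : i = j
    · subst hij
      rw [if_pos rfl]
      refine (h1 i (mem_range.1 hi)).congr fun X => ?_
      rw [Set.inter_self]
    · rw [if_neg hij]
      exact h2 i (mem_range.1 hi) j (mem_range.1 hj) hij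
  have hev := hlim.eventually (gt_mem_nhds (limit_val N hN0 p))
  have hsmall : ∀ᶠ X in atTop, ∀ i ∈ range N,
      cn (S X) (A ∩ P i) ≤ (p * δ - ε) * ((S X).card : ℝ) := by
    rw [eventually_all_finset]
    exact fun i hi => not_UD (hcon i (mem_range.1 hi))
  have h5 := (hA (ε / 2) (by positivity)).and_eventually (hev.and (hsmall.and hS))
  obtain ⟨X, hX1, hX2, hX3, hX4⟩ := h5.exists
  have hn : (0 : ℝ) < ((S X).card : ℝ) := by exact_mod_cast hX4.card_pos
  rw [div_lt_iff₀ hn] at hX2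
  obtain ⟨T, hT⟩ : ∃ T, T = (S X).filter fun D => D ∈ A := ⟨_, rfl⟩
  have hTS : T ⊆ S X := by
    rw [hT]
    exact filter_subset _ _
  have hTc : (T.card : ℝ) = cn (S X) A := by
    rw [hT]
    rfl
  -- the sum over `A`
  have k1 : ∑ D ∈ T, (p * N - ff P N D) = p * N * (T.card : ℝ) -
      ∑ i ∈ range N, cn T (P i) := by
    rw [sum_sub_distrib, sum_const, nsmul_eq_mul, sum_ff]
    ring
  have k2 : ∑ i ∈ range N, cn T (P i) ≤ N * ((p * δ - ε) * ((S X).card : ℝ)) := by
    have : ∑ i ∈ range N, cn T (P i) ≤ ∑ i ∈ range N, (p * δ - ε) * ((S X).card : ℝ) := by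
      refine sum_le_sum fun i hi => ?_
      have e : cn T (P i) = cn (S X) (A ∩ P i) := by
        unfold cn
        rw [hT, filter_filter]
        congr 2
        ext D
        simp only [mem_filter, Set.mem_inter_iff]
      rw [e]
      exact hX3 i hi
    rwa [sum_const, card_range, nsmul_eq_mul] at this
  have k3 : N * ε / 2 * ((S X).card : ℝ) ≤ ∑ D ∈ T, (p * N - ff P N D) := by
    rw [k1, hTc]
    have h3 : p * N * ((δ - ε / 2) * ((S X).card : ℝ)) ≤ p * N * cn (S X) A :=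
      mul_le_mul_of_nonneg_left hX1 (mul_nonneg hp0 hN0.le)
    have h4 : p * (N * ε * ((S X).card : ℝ)) ≤ 1 * (N * ε * ((S X).card : ℝ)) :=
      mul_le_mul_of_nonneg_right hp1 (by positivity)
    linarith
  have k4 : (∑ D ∈ T, (p * N - ff P N D)) ^ 2 ≤ ((S X).card : ℝ) * (N * ((S X).card : ℝ)) := by
    refine (sq_sum_le_card_mul_sum_sq).trans ?_
    have h5 : ∑ D ∈ T, (p * N - ff P N D) ^ 2 ≤ ∑ D ∈ S X, (p * N - ff P N D) ^ 2 :=
      sum_le_sum_of_subset_of_nonneg hTS fun _ _ _ => sq_nonneg _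
    have h6 : (T.card : ℝ) ≤ ((S X).card : ℝ) := by exact_mod_cast card_le_card hTS
    exact mul_le_mul h6 (h5.trans hX2.le) (sum_nonneg fun _ _ => sq_nonneg _) hn.le
  have k5 : (N * ε / 2 * ((S X).card : ℝ)) ^ 2 ≤ ((S X).card : ℝ) * (N * ((S X).card : ℝ)) :=
    (pow_le_pow_left₀ (by positivity) k3 2).trans k4
  have k6 : N * ε ^ 2 / 4 ≤ 1 := by
    have h7 : (N * ((S X).card : ℝ) ^ 2) * (N * ε ^ 2 / 4) ≤ (N * ((S X).card : ℝ) ^ 2) * 1 := by
      have e1 : (N * ((S X).card : ℝ) ^ 2) * (N * ε ^ 2 / 4) = (N * ε / 2 * ((S X).card : ℝ)) ^ 2 := by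
        ring
      have e2 : (N * ((S X).card : ℝ) ^ 2) * 1 = ((S X).card : ℝ) * (N * ((S X).card : ℝ)) := by
        ring
      rw [e1, e2]
      exact k5
    exact le_of_mul_le_mul_left h7 (by positivity)
  rw [div_lt_iff₀ (by positivity)] at hN
  linarith

/-- positive upper density -/
def Large (S : ℕ → Finset α) (A : Set α) : Prop := ∃ δ : ℝ, 0 < δ ∧ UD S A δ

theorem Large.mono {S : ℕ → Finset α} {A B : Set α} (h : Large S A) (hAB : A ⊆ B) : Large S B := by
  obtain ⟨δ, h1, h2⟩ := h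
  exact ⟨δ, h1, h2.mono hAB⟩

end mix

section law

variable {α V : Type*} [AddCommGroup V]

/-- the event with the pattern `W` for the elements of `R`, translated by `m` -/
def Ev (U : α → V) (G : V → Prop) (m : V) (R W : Finset V) : Set α :=
  {D | ∀ w ∈ R, (G (U D + (m + w)) ↔ w ∈ W)}

/-- the law -/
structure Law (S : ℕ → Finset α) (U : α → V) (G : V → Prop) (ok : V → Prop) (c : ℝ) : Prop where
  ne : ∀ᶠ X in atTop, (S X).Nonempty
  c0 : 0 < c
  c1 : c < 1
  law : ∀ P Q : Finset V, (∀ v ∈ P, ok v) → (∀ v ∈ Q, ok v) → Disjoint P Q →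
    Tendsto (fun X => cn (S X) {D | (∀ v ∈ P, G (U D + v)) ∧ ∀ v ∈ Q, ¬ G (U D + v)} /
      ((S X).card : ℝ)) atTop (𝓝 (c ^ P.card * (1 - c) ^ Q.card))

variable {S : ℕ → Finset α} {U : α → V} {G : V → Prop} {ok : V → Prop} {c : ℝ}

/-- the probability of a pattern -/
noncomputable def pr (c : ℝ) (R W : Finset V) : ℝ := c ^ W.card * (1 - c) ^ (R \ W).card

theorem Law.pr_pos (h : Law S U G ok c) (R W : Finset V) : 0 < pr c R W :=
  mul_pos (pow_pos h.c0 _) (pow_pos (by linarith [h.c1]) _)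

theorem Law.pr_le (h : Law S U G ok c) (R W : Finset V) : pr c R W ≤ 1 :=
  mul_le_one₀ (pow_le_one₀ h.c0.le h.c1.le) (pow_nonneg (by linarith [h.c1]) _)
    (pow_le_one₀ (by linarith [h.c1]) (by linarith [h.c0]))

/-- the translates of a set -/
noncomputable def tr (m : V) (R : Finset V) : Finset V := R.image fun w => m + w

theorem card_tr (m : V) (R : Finset V) : (tr m R).card = R.card :=
  card_image_of_injective _ fun _ _ h => add_left_cancel h

theorem mem_tr {m x : V} {R : Finset V} : x ∈ tr m R ↔ ∃ w ∈ R, m + w = x :=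
  mem_image

theorem Ev_eq {m : V} {R W : Finset V} (hW : W ⊆ R) : Ev U G m R W =
    {D | (∀ x ∈ tr m W, G (U D + x)) ∧ ∀ x ∈ tr m (R \ W), ¬ G (U D + x)} := by
  ext D
  constructor
  · intro h
    refine ⟨fun x hx => ?_, fun x hx => ?_⟩
    · obtain ⟨w, hw, rfl⟩ := mem_tr.1 hx
      exact (h w (hW hw)).2 hw
    · obtain ⟨w, hw, rfl⟩ := mem_tr.1 hx
      have hw' := mem_sdiff.1 hw
      exact fun h1 => hw'.2 ((h w hw'.1).1 h1)
  · rintro ⟨h1, h2⟩ w hw
    by_cases hwV : w ∈ W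
    · exact ⟨fun _ => hwV, fun _ => h1 _ (mem_tr.2 ⟨w, hwV, rfl⟩)⟩
    · exact ⟨fun h3 => absurd h3 (h2 _ (mem_tr.2 ⟨w, mem_sdiff.2 ⟨hw, hwV⟩, rfl⟩)),
        fun h3 => absurd h3 hwV⟩

theorem Law.ev (h : Law S U G ok c) {m : V} {R W : Finset V} (hR : ∀ w ∈ R, ok (m + w))
    (hW : W ⊆ R) :
    Tendsto (fun X => cn (S X) (Ev U G m R W) / ((S X).card : ℝ)) atTop (𝓝 (pr c R W)) := by
  have h1 := h.law (tr m W) (tr m (R \ W)) (fun x hx => by
    obtain ⟨w, hw, rfl⟩ := mem_tr.1 hx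
    exact hR w (hW hw)) (fun x hx => by
    obtain ⟨w, hw, rfl⟩ := mem_tr.1 hx
    exact hR w (mem_sdiff.1 hw).1) (by
    rw [disjoint_left]
    intro x hx hx'
    obtain ⟨w, hw, rfl⟩ := mem_tr.1 hx
    obtain ⟨w', hw', he⟩ := mem_tr.1 hx'
    have := add_left_cancel he
    rw [this] at hw'
    exact (mem_sdiff.1 hw').2 hw)
  rw [card_tr, card_tr] at h1
  rw [Ev_eq hW]
  exact h1

theorem Law.ev2 (h : Law S U G ok c) {m m' : V} {R W : Finset V} (hR : ∀ w ∈ R, ok (m + w))
    (hR' : ∀ w ∈ R, ok (m' + w)) (hW : W ⊆ R) (hmm : ∀ w ∈ R, ∀ w' ∈ R, m + w ≠ m' + w') :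
    Tendsto (fun X => cn (S X) (Ev U G m R W ∩ Ev U G m' R W) / ((S X).card : ℝ)) atTop
      (𝓝 (pr c R W * pr c R W)) := by
  have hd : ∀ A B : Finset V, A ⊆ R → B ⊆ R → Disjoint (tr m A) (tr m' B) := by
    intro A B hA hB
    rw [disjoint_left]
    intro x hx hx'
    obtain ⟨w, hw, rfl⟩ := mem_tr.1 hx
    obtain ⟨w', hw', he⟩ := mem_tr.1 hx'
    exact hmm w (hA hw) w' (hB hw') he.symm
  have hs : ∀ n : V, Disjoint (tr n W) (tr n (R \ W)) := by
    intro n
    rw [disjoint_left]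
    intro x hx hx'
    obtain ⟨w, hw, rfl⟩ := mem_tr.1 hx
    obtain ⟨w', hw', he⟩ := mem_tr.1 hx'
    have := add_left_cancel he
    rw [this] at hw'
    exact (mem_sdiff.1 hw').2 hw
  have hadm : ∀ n : V, (∀ w ∈ R, ok (n + w)) → ∀ A : Finset V, A ⊆ R → ∀ x ∈ tr n A, ok x := by
    intro n hn A hA x hx
    obtain ⟨w, hw, rfl⟩ := mem_tr.1 hx
    exact hn w (hA hw)
  have hQ : R \ W ⊆ R := sdiff_subset
  have h1 := h.law (tr m W ∪ tr m' W) (tr m (R \ W) ∪ tr m' (R \ W)) (fun x hx => by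
      rcases mem_union.1 hx with h1 | h1
      · exact hadm m hR W hW x h1
      · exact hadm m' hR' W hW x h1) (fun x hx => by
      rcases mem_union.1 hx with h1 | h1
      · exact hadm m hR _ hQ x h1
      · exact hadm m' hR' _ hQ x h1) (by
      rw [disjoint_union_left, disjoint_union_right, disjoint_union_right]
      exact ⟨⟨hs m, hd W _ hW hQ⟩, ⟨(hd _ W hQ hW).symm, hs m'⟩⟩)
  rw [card_union_of_disjoint (hd W W hW hW), card_union_of_disjoint (hd _ _ hQ hQ), card_tr,
    card_tr, card_tr, card_tr] at h1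
  have e1 : c ^ (W.card + W.card) * (1 - c) ^ ((R \ W).card + (R \ W).card) =
      pr c R W * pr c R W := by
    unfold pr
    ring
  rw [e1] at h1
  have e2 : Ev U G m R W ∩ Ev U G m' R W =
      {D | (∀ x ∈ tr m W ∪ tr m' W, G (U D + x)) ∧
        ∀ x ∈ tr m (R \ W) ∪ tr m' (R \ W), ¬ G (U D + x)} := by
    rw [Ev_eq hW, Ev_eq hW]
    ext D
    simp only [Set.mem_inter_iff, Set.mem_ofPred_eq, mem_union]
    constructor
    · rintro ⟨⟨a1, a2⟩, a3, a4⟩
      exact ⟨fun x hx => hx.elim (a1 x) (a3 x), fun x hx => hx.elim (a2 x) (a4 x)⟩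
    · rintro ⟨a1, a2⟩
      exact ⟨⟨fun x hx => a1 x (Or.inl hx), fun x hx => a2 x (Or.inl hx)⟩,
        fun x hx => a1 x (Or.inr hx), fun x hx => a2 x (Or.inr hx)⟩
  rw [e2]
  exact h1

/-- the translates which interfere with `x` -/
noncomputable def conf (R : Finset V) (x : V) : Finset V := (R ×ˢ R).image fun q => (x + q.1) - q.2

theorem conf_card (R : Finset V) (x : V) : (conf R x).card ≤ R.card ^ 2 := by
  unfold conf
  refine card_image_le.trans ?_
  rw [card_product, pow_two]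

/-- separated sets -/
def Sep (R I : Finset V) : Prop :=
  ∀ x ∈ I, ∀ y ∈ I, x ≠ y → ∀ w ∈ R, ∀ w' ∈ R, x + w ≠ y + w'

/-- a large separated subset -/
theorem separate {R : Finset V} (hR : R.Nonempty) (F : Finset V) :
    ∃ I ⊆ F, F.card ≤ I.card * R.card ^ 2 ∧ Sep R I := by
  obtain ⟨I, hI, hmax⟩ := Finset.exists_max_image (F.powerset.filter fun I => Sep R I)
    Finset.card ⟨∅, by
      rw [mem_filter, mem_powerset]
      exact ⟨empty_subset _, fun x hx => absurd hx (notMem_empty x)⟩⟩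
  rw [mem_filter, mem_powerset] at hI
  refine ⟨I, hI.1, ?_, hI.2⟩
  have hsub : F ⊆ I.biUnion (conf R) := by
    intro x hx
    by_contra hcon
    rw [mem_biUnion] at hcon
    push Not at hcon
    obtain ⟨w0, hw0⟩ := hR
    have hxI : x ∉ I := by
      intro h1
      apply hcon x h1
      unfold conf
      rw [mem_image]
      exact ⟨(w0, w0), mem_product.2 ⟨hw0, hw0⟩, add_sub_cancel_right _ _⟩
    have hno : ∀ y ∈ I, ∀ w ∈ R, ∀ w' ∈ R, y + w ≠ x + w' := by
      intro y hy w hw w' hw' he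
      apply hcon y hy
      unfold conf
      rw [mem_image]
      refine ⟨(w, w'), mem_product.2 ⟨hw, hw'⟩, ?_⟩
      show (y + w) - w' = x
      rw [he, add_sub_cancel_right]
    have h2 := hmax (insert x I) (by
      rw [mem_filter, mem_powerset]
      refine ⟨insert_subset hx hI.1, ?_⟩
      intro a ha b hb hab w hw w' hw'
      rcases mem_insert.1 ha with ha' | ha'
      · rcases mem_insert.1 hb with hb' | hb'
        · exact absurd (ha'.trans hb'.symm) hab
        · rw [ha']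
          exact (hno b hb' w' hw' w hw).symm
      · rcases mem_insert.1 hb with hb' | hb'
        · rw [hb']
          exact hno a ha' w hw w' hw'
        · exact hI.2 a ha' b hb' hab w hw w' hw')
    rw [card_insert_of_notMem hxI] at h2
    omega
  refine (card_le_card hsub).trans ?_
  refine card_biUnion_le.trans ?_
  refine (sum_le_sum fun x _ => conf_card R x).trans ?_
  rw [sum_const, smul_eq_mul]

/-- **Mixing**: at most `4 |R|² / ε²` exceptions -/
theorem Law.exc (h : Law S U G ok c) {R W : Finset V} (hW : W ⊆ R) {A : Set α} {δ : ℝ}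
    (hA : UD S A δ) {ε : ℝ} (hε : 0 < ε) {F : Finset V} (hF : ∀ m ∈ F, ∀ w ∈ R, ok (m + w))
    (hc : 4 * (R.card : ℝ) ^ 2 / ε ^ 2 < F.card) :
    ∃ m ∈ F, UD S (A ∩ Ev U G m R W) (pr c R W * δ - ε) := by
  rcases R.eq_empty_or_nonempty with rfl | hR
  · have hF0 : F.Nonempty := by
      rw [← card_pos]
      have : (0 : ℝ) < F.card := lt_of_le_of_lt (by positivity) hc
      exact_mod_cast this
    obtain ⟨m, hm⟩ := hF0
    refine ⟨m, hm, (hA.mono ?_).le ?_⟩
    · intro D hD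
      exact ⟨hD, fun w hw => absurd hw (notMem_empty w)⟩
    · rw [subset_empty.1 hW]
      unfold pr
      simp
      linarith
  obtain ⟨I, hIF, hcard, hsep⟩ := separate hR F
  have hRc : (0 : ℝ) < (R.card : ℝ) ^ 2 := by
    have : (0 : ℝ) < R.card := by exact_mod_cast hR.card_pos
    positivity
  have hI : 4 / ε ^ 2 < (I.card : ℝ) := by
    have h1 : (F.card : ℝ) ≤ I.card * (R.card : ℝ) ^ 2 := by exact_mod_cast hcard
    have h2 := lt_of_lt_of_le hc h1
    have e : 4 * (R.card : ℝ) ^ 2 / ε ^ 2 = 4 / ε ^ 2 * (R.card : ℝ) ^ 2 := by ring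
    rw [e] at h2
    exact lt_of_mul_lt_mul_right h2 hRc.le
  let e := I.equivFin.symm
  let f : ℕ → V := fun i => if hi : i < I.card then (e ⟨i, hi⟩).1 else 0
  have hf : ∀ i, ∀ hi : i < I.card, f i = (e ⟨i, hi⟩).1 := fun i hi => dif_pos hi
  have hfI : ∀ i < I.card, f i ∈ I := fun i hi => by
    rw [hf i hi]
    exact (e ⟨i, hi⟩).2
  have hfne : ∀ i < I.card, ∀ j < I.card, i ≠ j → f i ≠ f j := by
    intro i hi j hj hij he
    rw [hf i hi, hf j hj] at he
    have h1 := e.injective (Subtype.ext he)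
    exact hij (by simpa using h1)
  obtain ⟨i, hi, hi2⟩ := mixN h.ne (P := fun i => Ev U G (f i) R W) (N := I.card)
    (h.pr_pos R W).le (h.pr_le R W)
    (fun i hi => h.ev (hF _ (hIF (hfI i hi))) hW)
    (fun i hi j hj hij => h.ev2 (hF _ (hIF (hfI i hi))) (hF _ (hIF (hfI j hj))) hW
      (hsep _ (hfI i hi) _ (hfI j hj) (hfne i hi j hj hij))) hA hε hI
  exact ⟨f i, hIF (hfI i hi), hi2⟩

theorem Law.finite_exc (h : Law S U G ok c) {R W : Finset V} (hW : W ⊆ R) {A : Set α} {δ : ℝ}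
    (hA : UD S A δ) {ε : ℝ} (hε : 0 < ε) :
    {m : V | (∀ w ∈ R, ok (m + w)) ∧ ¬ UD S (A ∩ Ev U G m R W) (pr c R W * δ - ε)}.Finite := by
  by_contra hinf
  obtain ⟨N, hN⟩ := exists_nat_gt (4 * (R.card : ℝ) ^ 2 / ε ^ 2)
  obtain ⟨F, hF1, hF2⟩ := (show Set.Infinite _ from hinf).exists_subset_card_eq N
  obtain ⟨m, hm, h1⟩ := h.exc hW hA hε (F := F) (fun m hm => (hF1 hm).1) (by rw [hF2]; exact hN)
  exact (hF1 hm).2 h1

theorem Law.large_exc (h : Law S U G ok c) {R W : Finset V} (hW : W ⊆ R) {A : Set α}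
    (hA : Large S A) :
    {m : V | (∀ w ∈ R, ok (m + w)) ∧ ¬ Large S (A ∩ Ev U G m R W)}.Finite := by
  obtain ⟨δ, h1, h2⟩ := hA
  have hp := h.pr_pos R W
  refine (h.finite_exc hW h2 (ε := pr c R W * δ / 2) (by positivity)).subset ?_
  rintro m ⟨h3, h4⟩
  refine ⟨h3, fun h5 => h4 ⟨_, ?_, h5⟩⟩
  have : 0 < pr c R W * δ := by positivity
  linarith

end law

end Run7.h460.QD
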