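import Pool.Agent.Run7.h460.QD.LawQ

/-!
# The theorem in terms of natural numbers
-/

set_option autoImplicit false

open scoped Classical

namespace Run7.h460.QD.Q

open Finset Filter Topology
open Run7.h460.JL.Mix
open Run7.h460.QD
open Pool.Agent.Y703.CX (c3)
open Pool.Agent.Y703.CT (Cls NoSplit)
open Pool.Agent.R432.JG (Cl cl_iff twN tw_cls Pre pre_of)

attribute [-instance] Finsupp.instDecidableEq

/-- the cube-free part -/
noncomputable def cf (n : ℕ) : ℕ := n.factorization.prod fun p e => p ^ (e % 3)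

/-- the multipliers: cube-free numbers with prime factors `1` modulo `9` -/
def IsMult (m : ℕ) : Prop :=
  m ≠ 0 ∧ (∀ p : ℕ, p.Prime → ¬ p ^ 3 ∣ m) ∧ ∀ p : ℕ, p.Prime → p ∣ m → p % 9 = 1

/-- all the prime factors are `1` modulo `9` -/
def IsNine (m : ℕ) : Prop := m ≠ 0 ∧ ∀ p : ℕ, p.Prime → p ∣ m → p % 9 = 1

theorem IsMult.nine {m : ℕ} (h : IsMult m) : IsNine m := ⟨h.1, h.2.2⟩

theorem IsNine.mul {m n : ℕ} (h : IsNine m) (h' : IsNine n) : IsNine (m * n) := by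
  refine ⟨mul_ne_zero h.1 h'.1, fun p hp hd => ?_⟩
  rcases (Nat.Prime.dvd_mul hp).1 hd with h1 | h1
  · exact h.2 p hp h1
  · exact h'.2 p hp h1

theorem nv_U (n : ℕ) : nv (U n) = cf n := by
  rw [nv_eq (s := n.primeFactors) U_support]
  unfold cf Finsupp.prod
  rw [Nat.support_factorization]
  refine prod_congr rfl fun p _ => ?_
  rw [U_apply, ZMod.val_natCast]

theorem cf_spec {n : ℕ} (hn : n ≠ 0) : ∃ r, 0 < r ∧ n = cf n * r ^ 3 := by
  refine ⟨n.factorization.prod fun p e => p ^ (e / 3), ?_, ?_⟩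
  · refine Finset.prod_pos fun p hp => ?_
    have : p.Prime := Nat.prime_of_mem_primeFactors (by
      rwa [Nat.support_factorization] at hp)
    exact pow_pos this.pos _
  · conv_lhs => rw [← Nat.prod_factorization_pow_eq_self hn]
    unfold cf Finsupp.prod
    rw [← Finset.prod_pow, ← Finset.prod_mul_distrib]
    refine prod_congr rfl fun p _ => ?_
    rw [← pow_mul, ← pow_add]
    congr 1
    omega

theorem cf_of_free {n : ℕ} (hn : n ≠ 0) (h : ∀ p : ℕ, p.Prime → ¬ p ^ 3 ∣ n) : cf n = n := by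
  conv_rhs => rw [← Nat.prod_factorization_pow_eq_self hn]
  unfold cf Finsupp.prod
  refine prod_congr rfl fun p hp => ?_
  have hp' : p.Prime := Nat.prime_of_mem_primeFactors (by
      rwa [Nat.support_factorization] at hp)
  show p ^ (n.factorization p % 3) = p ^ n.factorization p
  congr 1
  refine Nat.mod_eq_of_lt ?_
  by_contra hcon
  push Not at hcon
  exact h p hp' ((hp'.pow_dvd_iff_le_factorization hn).2 hcon)

theorem U_inj {m n : ℕ} (hm : IsMult m) (hn : IsMult n) (h : U m = U n) : m = n := by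
  rw [← cf_of_free hm.1 hm.2.1, ← cf_of_free hn.1 hn.2.1, ← nv_U, ← nv_U, h]

theorem ok_U {m : ℕ} (h : IsNine m) : ok (U m) := by
  intro p hp
  have h1 := U_support hp
  exact ⟨Nat.prime_of_mem_primeFactors h1, h.2 p (Nat.prime_of_mem_primeFactors h1)
    (Nat.dvd_of_mem_primeFactors h1)⟩

theorem G_iff {D n : ℕ} (hD : D ≠ 0) (hn : n ≠ 0) : G (U D + U n) ↔ NoSplit (cf (D * n)) := by
  unfold G
  rw [← U_mul hD hn, nv_U]

theorem UD.congr' {S : ℕ → Finset ℕ} {A B : Set ℕ} {δ : ℝ} (h : UD S A δ)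
    (hAB : ∀ X, ∀ D ∈ S X, D ∈ A → D ∈ B) : UD S B δ := by
  intro ε hε
  refine (h ε hε).mono fun X hX => hX.trans ?_
  unfold cn
  exact_mod_cast card_le_card (fun D hD => by
    rw [mem_filter] at hD ⊢
    exact ⟨hD.1, hAB X D hD.1 hD.2⟩)

theorem cn_congr {S : Finset ℕ} {A B : Set ℕ} (h : ∀ D ∈ S, D ∈ A ↔ D ∈ B) : cn S A = cn S B := by
  unfold cn
  congr 2
  ext D
  simp only [mem_filter]
  exact and_congr_right fun hD => h D hD

theorem mem_SC {M : Finset ℕ} {X D : ℕ} (h : D ∈ SC M X) : Cl M D := by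
  unfold SC at h
  rw [mem_filter] at h
  exact h.2

/-- **Mixing over the rational numbers.** -/
theorem mix_nat {M₀ : Finset ℕ} (hM₀ : ∀ q ∈ M₀, q.Prime ∧ q % 9 = 1) {T V : Finset ℕ}
    (hT : ∀ t ∈ T, IsMult t) (hV : V ⊆ T) {A : Set ℕ} {δ : ℝ} (hA : UD (SC M₀) A δ) {ε : ℝ}
    (hε : 0 < ε) {F : Finset ℕ} (hF : ∀ m ∈ F, IsMult m)
    (hc : 4 * (T.card : ℝ) ^ 2 / ε ^ 2 < F.card) :
    ∃ m ∈ F, UD (SC M₀) {D | D ∈ A ∧ ∀ t ∈ T, (NoSplit (cf (D * (m * t))) ↔ t ∈ V)}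
      (c3 ^ V.card * (1 - c3) ^ (T.card - V.card) * δ - ε) := by
  have hinj : ∀ {s : Finset ℕ}, (∀ t ∈ s, IsMult t) → Set.InjOn U (s : Set ℕ) :=
    fun hs a ha b hb h => U_inj (hs a ha) (hs b hb) h
  have hVT : ∀ t ∈ V, IsMult t := fun t ht => hT t (hV ht)
  obtain ⟨v, hv, h⟩ := (law hM₀).exc (R := T.image U) (W := V.image U) (image_subset_image hV) hA
    hε (F := F.image U) (by
      intro v hv w hw
      obtain ⟨m, hm, rfl⟩ := mem_image.1 hv
      obtain ⟨t, ht, rfl⟩ := mem_image.1 hw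
      exact ok_add _ _ (ok_U (hF m hm).nine) (ok_U (hT t ht).nine)) (by
      rw [card_image_of_injOn (hinj hT), card_image_of_injOn (hinj hF)]
      exact hc)
  obtain ⟨m, hm, rfl⟩ := mem_image.1 hv
  refine ⟨m, hm, ?_⟩
  have e1 : pr c3 (T.image U) (V.image U) = c3 ^ V.card * (1 - c3) ^ (T.card - V.card) := by
    unfold pr
    rw [card_sdiff_of_subset (image_subset_image hV), card_image_of_injOn (hinj hT),
      card_image_of_injOn (hinj hVT)]
  rw [e1] at h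
  refine UD.congr' h fun X D hD hDA => ?_
  refine ⟨hDA.1, fun t ht => ?_⟩
  have h1 := hDA.2 (U t) (mem_image_of_mem U ht)
  have hD0 : D ≠ 0 := (mem_SC hD).1.ne_zero
  rw [← U_mul (hF m hm).1 (hT t ht).1, G_iff hD0 (mul_ne_zero (hF m hm).1 (hT t ht).1)] at h1
  rw [h1, mem_image]
  constructor
  · rintro ⟨s, hs, he⟩
    rw [← U_inj (hVT s hs) (hT t ht) he]
    exact hs
  · exact fun h2 => ⟨t, h2, rfl⟩

/-- **Independence along a sequence of multipliers.** -/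
theorem sub_nat {M₀ : Finset ℕ} (hM₀ : ∀ q ∈ M₀, q.Prime ∧ q % 9 = 1) {M : Set ℕ}
    (hM : M.Infinite) (hMm : ∀ m ∈ M, IsMult m) {A : Set ℕ} (hA : Large (SC M₀) A) :
    ∃ u : ℕ → ℕ, Function.Injective u ∧ (∀ i, u i ∈ M) ∧
      ∀ (n : ℕ) (Z : Finset (Finset ℕ)), Large (SC M₀) {D | D ∈ A ∧ ∀ T ⊆ range n, T.Nonempty →
        (NoSplit (cf (D * ∏ i ∈ T, u i)) ↔ T ∈ Z)} := by
  obtain ⟨v, hv1, hv2, hv3⟩ := (law hM₀).sub ok_zero ok_add (M := U '' M)
    (hM.image fun a ha b hb h => U_inj (hMm a ha) (hMm b hb) h)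
    (by
      rintro w ⟨m, hm, rfl⟩
      exact ok_U (hMm m hm).nine) hA
  choose u hu1 hu2 using hv2
  refine ⟨u, fun i j hij => hv1 (by rw [← hu2 i, ← hu2 j, hij]), hu1, fun n Z => ?_⟩
  obtain ⟨δ, h1, h2⟩ := hv3 n Z
  refine ⟨δ, h1, UD.congr' h2 fun X D hD hDA => ⟨hDA.1, fun T hT hne => ?_⟩⟩
  have hD0 : D ≠ 0 := (mem_SC hD).1.ne_zero
  have hp0 : ∀ s : Finset ℕ, ∏ i ∈ s, u i ≠ 0 := fun s =>
    prod_ne_zero_iff.2 fun i _ => (hMm _ (hu1 i)).1
  have hs : ∀ s : Finset ℕ, ∑ i ∈ s, v i = U (∏ i ∈ s, u i) := by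
    intro s
    induction s using Finset.induction_on with
    | empty =>
      rw [sum_empty, prod_empty]
      ext p
      rw [U_apply, Nat.factorization_one]
      rfl
    | insert a s ha ih =>
      rw [sum_insert ha, prod_insert ha, U_mul (hMm _ (hu1 a)).1 (hp0 s), ih, hu2 a]
  have h3 := hDA.2 T hT hne
  rw [hs T, G_iff hD0 (hp0 T)] at h3
  exact h3

/-- **The law of finitely many multipliers.** -/
theorem law_nat {M₀ : Finset ℕ} (hM₀ : ∀ q ∈ M₀, q.Prime ∧ q % 9 = 1) {T V : Finset ℕ}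
    (hT : ∀ t ∈ T, IsMult t) (hV : V ⊆ T) :
    Tendsto (fun X => cn (SC M₀ X) {D | ∀ t ∈ T, (NoSplit (cf (D * t)) ↔ t ∈ V)} /
      ((SC M₀ X).card : ℝ)) atTop (𝓝 (c3 ^ V.card * (1 - c3) ^ (T.card - V.card))) := by
  have hinj : ∀ {s : Finset ℕ}, (∀ t ∈ s, IsMult t) → Set.InjOn U (s : Set ℕ) :=
    fun hs a ha b hb h => U_inj (hs a ha) (hs b hb) h
  have hVT : ∀ t ∈ V, IsMult t := fun t ht => hT t (hV ht)
  have h := law_main hM₀ (V.image U) ((T \ V).image U) (fun v hv => by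
    obtain ⟨t, ht, rfl⟩ := mem_image.1 hv
    exact ok_U (hVT t ht).nine) (fun v hv => by
    obtain ⟨t, ht, rfl⟩ := mem_image.1 hv
    exact ok_U (hT t (mem_sdiff.1 ht).1).nine) (by
    rw [disjoint_left]
    intro v h1 h2
    obtain ⟨t, ht, rfl⟩ := mem_image.1 h1
    obtain ⟨s, hs, he⟩ := mem_image.1 h2
    rw [U_inj (hT s (mem_sdiff.1 hs).1) (hVT t ht) he] at hs
    exact (mem_sdiff.1 hs).2 ht)
  rw [card_image_of_injOn (hinj hVT), card_image_of_injOn (hinj fun t ht =>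
    hT t (mem_sdiff.1 ht).1), card_sdiff_of_subset hV] at h
  refine h.congr fun X => ?_
  congr 1
  refine cn_congr fun D hD => ?_
  have hD0 : D ≠ 0 := (mem_SC hD).1.ne_zero
  constructor
  · rintro ⟨h1, h2⟩ t ht
    by_cases htV : t ∈ V
    · exact ⟨fun _ => htV, fun _ => (G_iff hD0 (hT t ht).1).1 (h1 _ (mem_image_of_mem U htV))⟩
    · exact ⟨fun h3 => absurd ((G_iff hD0 (hT t ht).1).2 h3)
        (h2 _ (mem_image_of_mem U (mem_sdiff.2 ⟨ht, htV⟩))), fun h3 => absurd h3 htV⟩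
  · intro h1
    refine ⟨fun v hv => ?_, fun v hv h2 => ?_⟩
    · obtain ⟨t, ht, rfl⟩ := mem_image.1 hv
      exact (G_iff hD0 (hT t (hV ht)).1).2 ((h1 t (hV ht)).2 ht)
    · obtain ⟨t, ht, rfl⟩ := mem_image.1 hv
      exact (mem_sdiff.1 ht).2 ((h1 t (mem_sdiff.1 ht).1).1
        ((G_iff hD0 (hT t (mem_sdiff.1 ht).1).1).1 h2))

/-- the cube-free part of a twist: the class and the prime factors -/
theorem cf_tw {D n : ℕ} (hD : Cl ∅ D) (hn : IsNine n) {M₀ : Finset ℕ}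
    (hM₀ : ∀ q ∈ M₀, q.Prime ∧ q % 9 = 1) :
    ∃ (M : Finset ℕ) (D' : ℕ) (t : {l : ℕ // l ∈ M} → ZMod 3), M₀ ⊆ M ∧
      (∀ q ∈ M, q.Prime ∧ q % 9 = 1) ∧ Cl M D' ∧ cf (D * n) = twN D' M t ∧
      (∀ l : {l : ℕ // l ∈ M}, ¬ l.1 ∣ D → ¬ l.1 ∣ n → t l = 0) := by
  set M := M₀ ∪ n.primeFactors with hMd
  have hM : ∀ q ∈ M, q.Prime ∧ q % 9 = 1 := by
    intro q hq
    rcases mem_union.1 hq with h | h
    · exact hM₀ q h
    · exact ⟨Nat.prime_of_mem_primeFactors h, hn.2 q (Nat.prime_of_mem_primeFactors h)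
        (Nat.dvd_of_mem_primeFactors h)⟩
  obtain ⟨D', hD', hC⟩ := cl_div (M := M) (M₀ := ∅) hM hD
  set g := (M \ ∅).filter fun p => p ∣ D with hg
  have hgM : g ⊆ M := fun p hp => (mem_sdiff.1 (mem_filter.1 hp).1).1
  have hg0 : ∏ p ∈ g, p ≠ 0 := prod_ne_zero_iff.2 fun p hp => (hM p (hgM hp)).1.ne_zero
  have hD0 : D ≠ 0 := hD.1.ne_zero
  have hsup : (U (∏ p ∈ g, p) + U n).support ⊆ M := by
    refine (Finsupp.support_add).trans (union_subset ?_ ?_)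
    · refine U_support.trans ?_
      rw [Nat.primeFactors_prod fun p hp => (hM p (hgM hp)).1]
      exact hgM
    · exact U_support.trans subset_union_right
  refine ⟨M, D', fun l => (U (∏ p ∈ g, p) + U n) l.1, subset_union_left, hM, hC, ?_, ?_⟩
  · rw [← nv_tw hC hsup, ← nv_U, U_mul hD0 hn.1]
    congr 1
    conv_lhs => rw [hD']
    rw [U_mul hg0 hC.1.ne_zero]
    abel
  · intro l h1 h2
    have h3 : ¬ l.1 ∣ ∏ p ∈ g, p := fun h => h1 (h.trans (Dvd.intro _ hD'.symm))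
    show (U (∏ p ∈ g, p) + U n) l.1 = 0
    rw [Finsupp.add_apply, U_of_not_dvd h3, U_of_not_dvd h2, add_zero]

theorem cls_cf {D n : ℕ} (hD : Cl ∅ D) (hn : IsNine n) : Cls (cf (D * n)) := by
  obtain ⟨M, D', t, -, hM, hC, he, -⟩ := cf_tw hD hn (M₀ := ∅) (fun q hq => absurd hq (notMem_empty q))
  rw [he]
  exact tw_cls hC.2.1 (pre_of hM hC)

end Run7.h460.QD.Q
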