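import Pool.Agent.Run7.h460.QD.RepQ

/-!
# Mixing for families of fields
-/

set_option autoImplicit false

open scoped Classical

namespace Run7.h460.QD

open Finset Filter Topology
open Run7.h460.JL.Mix

section abs

variable {α V : Type*} [AddCommGroup V]
variable {S : ℕ → Finset α} {U : α → V} {G : V → Prop} {ok : V → Prop} {c : ℝ}

/-- **Mixing for disjoint sets of translates** -/
theorem Law.exc_family (h : Law S U G ok c) {r N : ℕ} {R : ℕ → Finset V}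
    (hok : ∀ i < N, ∀ v ∈ R i, ok v) (hcard : ∀ i < N, (R i).card = r)
    (hdis : ∀ i < N, ∀ j < N, i ≠ j → Disjoint (R i) (R j)) {A : Set α} {δ : ℝ} (hA : UD S A δ)
    {ε : ℝ} (hε : 0 < ε) (hN : 4 / ε ^ 2 < N) :
    ∃ i < N, UD S (A ∩ {D | ∀ v ∈ R i, G (U D + v)}) (c ^ r * δ - ε) := by
  refine mixN h.ne (P := fun i => {D | ∀ v ∈ R i, G (U D + v)}) (pow_nonneg h.c0.le _)
    (pow_le_one₀ h.c0.le h.c1.le) (fun i hi => ?_) (fun i hi j hj hij => ?_) hA hε hN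
  · have h1 := h.law (R i) ∅ (hok i hi) (fun v hv => absurd hv (notMem_empty v))
      (disjoint_empty_right _)
    rw [card_empty, pow_zero, mul_one, hcard i hi] at h1
    refine h1.congr fun X => ?_
    congr 2
    ext D
    simp
  · have h1 := h.law (R i ∪ R j) ∅ (fun v hv => by
      rcases mem_union.1 hv with h2 | h2
      · exact hok i hi v h2
      · exact hok j hj v h2) (fun v hv => absurd hv (notMem_empty v)) (disjoint_empty_right _)
    rw [card_empty, pow_zero, mul_one, card_union_of_disjoint (hdis i hi j hj hij), hcard i hi,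
      hcard j hj, pow_add] at h1
    refine h1.congr fun X => ?_
    congr 2
    ext D
    simp only [Set.mem_ofPred_eq, Set.mem_inter_iff, mem_union]
    constructor
    · rintro ⟨h2, -⟩
      exact ⟨fun v hv => h2 v (Or.inl hv), fun v hv => h2 v (Or.inr hv)⟩
    · rintro ⟨h2, h3⟩
      exact ⟨fun v hv => hv.elim (h2 v) (h3 v), fun v hv => absurd hv (notMem_empty v)⟩

end abs

namespace Q

open Pool.Agent.Y703.CX (c3)
open Pool.Agent.Y703.CT (Cls NoSplit)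
open Pool.Agent.R432.JG (Cl)

attribute [-instance] Finsupp.instDecidableEq

variable {n : ℕ}

/-- the product of powers -/
def tw (d : Fin n → ℕ) (t : Fin n → ZMod 3) : ℕ := ∏ i, d i ^ (t i).val

/-- the numbers `d i` are independent modulo cubes -/
def Indep (d : Fin n → ℕ) : Prop := ∀ t : Fin n → ZMod 3, t ≠ 0 → cf (tw d t) ≠ 1

/-- the subgroups generated by the `d i` and by the `d' i` modulo cubes have trivial intersection -/
def Disj (d d' : Fin n → ℕ) : Prop :=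
  ∀ t t' : Fin n → ZMod 3, t ≠ 0 → t' ≠ 0 → cf (tw d t) ≠ cf (tw d' t')

theorem tw_nine {d : Fin n → ℕ} (hd : ∀ i, IsNine (d i)) (t : Fin n → ZMod 3) : IsNine (tw d t) := by
  refine ⟨prod_ne_zero_iff.2 fun i _ => pow_ne_zero _ (hd i).1, fun p hp h => ?_⟩
  obtain ⟨i, -, hi⟩ := (hp.prime.dvd_finsetProd_iff _).1 h
  exact (hd i).2 p hp (hp.dvd_of_dvd_pow hi)

theorem U_pow {a : ℕ} (ha : a ≠ 0) (k : ℕ) : U (a ^ k) = (k : ZMod 3) • U a := by
  ext p
  rw [U_apply, Nat.factorization_pow, Finsupp.smul_apply, Finsupp.smul_apply, smul_eq_mul,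
    smul_eq_mul, U_apply]
  push_cast
  rfl

theorem U_tw {d : Fin n → ℕ} (hd : ∀ i, d i ≠ 0) (t : Fin n → ZMod 3) :
    U (tw d t) = ∑ i, t i • U (d i) := by
  unfold tw
  have h : ∀ s : Finset (Fin n), U (∏ i ∈ s, d i ^ (t i).val) = ∑ i ∈ s, t i • U (d i) := by
    intro s
    induction s using Finset.induction_on with
    | empty =>
      rw [prod_empty, sum_empty]
      ext p
      rw [U_apply, Nat.factorization_one]
      rfl
    | insert a s ha ih =>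
      rw [prod_insert ha, sum_insert ha, U_mul (pow_ne_zero _ (hd a))
        (prod_ne_zero_iff.2 fun i _ => pow_ne_zero _ (hd i)), ih, U_pow (hd a),
        ZMod.natCast_zmod_val]
  exact h univ

theorem U_tw_inj {d : Fin n → ℕ} (hd : ∀ i, d i ≠ 0) (hi : Indep d) :
    Function.Injective fun t : Fin n → ZMod 3 => U (tw d t) := by
  intro t t' h
  have h1 : U (tw d (t - t')) = 0 := by
    rw [U_tw hd]
    have h2 : ∀ i, (t - t') i • U (d i) = t i • U (d i) - t' i • U (d i) := fun i => by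
      rw [Pi.sub_apply, sub_smul]
    rw [sum_congr rfl fun i _ => h2 i, sum_sub_distrib, ← U_tw hd, ← U_tw hd]
    exact sub_eq_zero.2 h
  by_contra hne
  refine hi (t - t') (sub_ne_zero.2 hne) ?_
  rw [← nv_U, h1]
  rfl

/-- the set of the nontrivial twists -/
noncomputable def Rd (d : Fin n → ℕ) : Finset Ve :=
  ((univ : Finset (Fin n → ZMod 3)).erase 0).image fun t => U (tw d t)

theorem Rd_card {d : Fin n → ℕ} (hd : ∀ i, d i ≠ 0) (hi : Indep d) : (Rd d).card = 3 ^ n - 1 := by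
  unfold Rd
  rw [card_image_of_injective _ (U_tw_inj hd hi), card_erase_of_mem (mem_univ _), card_univ,
    Fintype.card_fun, ZMod.card, Fintype.card_fin]

theorem Rd_ok {d : Fin n → ℕ} (hd : ∀ i, IsNine (d i)) : ∀ v ∈ Rd d, ok v := by
  intro v hv
  unfold Rd at hv
  obtain ⟨t, -, rfl⟩ := mem_image.1 hv
  exact ok_U (tw_nine hd t)

theorem Rd_disj {d d' : Fin n → ℕ} (h : Disj d d') : Disjoint (Rd d) (Rd d') := by
  rw [disjoint_left]
  intro v hv hv'
  unfold Rd at hv hv'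
  obtain ⟨t, ht, rfl⟩ := mem_image.1 hv
  obtain ⟨t', ht', he⟩ := mem_image.1 hv'
  refine h t t' (mem_erase.1 ht).1 (mem_erase.1 ht').1 ?_
  rw [← nv_U, ← nv_U, he]

theorem Rd_iff {d : Fin n → ℕ} (hd : ∀ i, d i ≠ 0) {D : ℕ} (hD : D ≠ 0) :
    (∀ v ∈ Rd d, G (U D + v)) ↔ ∀ t : Fin n → ZMod 3, t ≠ 0 → NoSplit (cf (D * tw d t)) := by
  have h0 : ∀ t, tw d t ≠ 0 := fun t => prod_ne_zero_iff.2 fun i _ => pow_ne_zero _ (hd i)
  unfold Rd
  constructor
  · intro h t ht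
    exact (G_iff hD (h0 t)).1 (h _ (mem_image.2 ⟨t, mem_erase.2 ⟨ht, mem_univ _⟩, rfl⟩))
  · intro h v hv
    obtain ⟨t, ht, rfl⟩ := mem_image.1 hv
    exact (G_iff hD (h0 t)).2 (h t (mem_erase.1 ht).1)

/-- **Mixing for families of fields.** -/
theorem fam_nat {M₀ : Finset ℕ} (hM₀ : ∀ q ∈ M₀, q.Prime ∧ q % 9 = 1) {J : Finset (Fin n → ℕ)}
    (hJ : ∀ d ∈ J, (∀ i, IsNine (d i)) ∧ Indep d) (hdis : ∀ d ∈ J, ∀ d' ∈ J, d ≠ d' → Disj d d')
    {A : Set ℕ} {δ : ℝ} (hA : UD (SC M₀) A δ) {ε : ℝ} (hε : 0 < ε) (hc : 4 / ε ^ 2 < J.card) :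
    ∃ d ∈ J, UD (SC M₀) {D | D ∈ A ∧ ∀ t : Fin n → ZMod 3, t ≠ 0 → NoSplit (cf (D * tw d t))}
      (c3 ^ (3 ^ n - 1) * δ - ε) := by
  let e := J.equivFin.symm
  let f : ℕ → (Fin n → ℕ) := fun i => if hi : i < J.card then (e ⟨i, hi⟩).1 else 0
  have hf : ∀ i, ∀ hi : i < J.card, f i = (e ⟨i, hi⟩).1 := fun i hi => dif_pos hi
  have hfI : ∀ i < J.card, f i ∈ J := fun i hi => by
    rw [hf i hi]
    exact (e ⟨i, hi⟩).2
  have hfne : ∀ i < J.card, ∀ j < J.card, i ≠ j → f i ≠ f j := by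
    intro i hi j hj hij he
    rw [hf i hi, hf j hj] at he
    have h1 := e.injective (Subtype.ext he)
    exact hij (by simpa using h1)
  obtain ⟨i, hi, h⟩ := (law hM₀).exc_family (r := 3 ^ n - 1) (N := J.card)
    (R := fun i => Rd (f i)) (fun i hi => Rd_ok (hJ _ (hfI i hi)).1)
    (fun i hi => Rd_card (fun k => ((hJ _ (hfI i hi)).1 k).1) (hJ _ (hfI i hi)).2)
    (fun i hi j hj hij => Rd_disj (hdis _ (hfI i hi) _ (hfI j hj) (hfne i hi j hj hij))) hA hε hc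
  refine ⟨f i, hfI i hi, UD.congr' h fun X D hD hDA => ⟨hDA.1, ?_⟩⟩
  exact (Rd_iff (fun k => ((hJ _ (hfI i hi)).1 k).1) (mem_SC hD).1.ne_zero).1 hDA.2

/-- **The law for a finite family of fields.** -/
theorem fam_law {M₀ : Finset ℕ} (hM₀ : ∀ q ∈ M₀, q.Prime ∧ q % 9 = 1) {J : Finset (Fin n → ℕ)}
    (hJ : ∀ d ∈ J, (∀ i, IsNine (d i)) ∧ Indep d) (hdis : ∀ d ∈ J, ∀ d' ∈ J, d ≠ d' → Disj d d') :
    Tendsto (fun X => cn (SC M₀ X) {D | ∀ d ∈ J, ∀ t : Fin n → ZMod 3, t ≠ 0 →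
      NoSplit (cf (D * tw d t))} / ((SC M₀ X).card : ℝ)) atTop
      (𝓝 (c3 ^ (J.card * (3 ^ n - 1)))) := by
  have h := law_main hM₀ (J.biUnion Rd) ∅ (fun v hv => by
    obtain ⟨d, hd, h1⟩ := mem_biUnion.1 hv
    exact Rd_ok (hJ d hd).1 v h1) (fun v hv => absurd hv (notMem_empty v)) (disjoint_empty_right _)
  rw [card_empty, pow_zero, mul_one, card_biUnion fun d hd d' hd' hne =>
    Rd_disj (hdis d hd d' hd' hne), sum_congr rfl fun d hd =>
    Rd_card (fun k => ((hJ d hd).1 k).1) (hJ d hd).2, sum_const, smul_eq_mul] at h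
  refine h.congr fun X => ?_
  congr 1
  refine cn_congr fun D hD => ?_
  have hD0 := (mem_SC hD).1.ne_zero
  constructor
  · rintro ⟨h1, -⟩ d hd
    exact (Rd_iff (fun k => ((hJ d hd).1 k).1) hD0).1 fun v hv =>
      h1 v (mem_biUnion.2 ⟨d, hd, hv⟩)
  · intro h1
    refine ⟨fun v hv => ?_, fun v hv => absurd hv (notMem_empty v)⟩
    obtain ⟨d, hd, h2⟩ := mem_biUnion.1 hv
    exact (Rd_iff (fun k => ((hJ d hd).1 k).1) hD0).2 (h1 d hd) v h2

open IntermediateField in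
/-- the multiplicities -/
theorem mult_of {D : ℕ} (hD : Cl ∅ D) {d : Fin n → ℕ} (hd : ∀ i, IsNine (d i))
    (hN : ∀ t : Fin n → ZMod 3, t ≠ 0 → NoSplit (cf (D * tw d t)))
    {F : Type} [Field F] [NumberField F] {ω : F} (hω : ω ^ 2 + ω + 1 = 0) (x : Fin n → F)
    (hx : ∀ i, x i ^ 3 = (d i : F)) (hgen : ∀ S : Subfield F, ω ∈ S → (∀ i, x i ∈ S) → S = ⊤)
    {V : Type} [AddCommGroup V] [Module ℂ V] (ρ : Representation ℂ (F ≃ₐ[ℚ] F) V)
    (hρ : ∀ v : V, (∀ g : F ≃ₐ[ℚ] F, g ω = ω → ρ g v = v) → v = 0) :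
    Run7.h460.QD.RepQ.mult F D ρ = 0 := by
  refine Run7.h460.QD.RepQ.mult_zero hω hD.1.ne_zero d (fun i => (hd i).1) x hx hgen
    (fun t ht => ?_) ρ hρ
  have h1 := tw_nine hd t
  obtain ⟨r, hr, h2⟩ := cf_spec (mul_ne_zero hD.1.ne_zero h1.1)
  have h3 := Run7.h460.QD.RepQ.fin_cube (K := ℚ⟮ω⟯) hr
    (Run7.h460.QD.RepQ.fin_K hω (cls_cf hD h1) (hN t ht))
  rw [← h2] at h3
  exact h3

end Q

end Run7.h460.QD
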