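import Pool.Agent.Run7.h460.QD.Arith

/-!
# Interface for the hand-ins
-/

set_option autoImplicit false

open scoped Classical

namespace Run7.h460.QD.Q

open Finset Filter Topology
open Run7.h460.JL.Mix
open Run7.h460.QD
open Pool.Agent.Y703.CX (c3)
open Pool.Agent.R432.JG (Cl cl_iff ev_pos)

variable {M₀ : Finset ℕ}

theorem cn_card {Fam : ℕ → Prop} (hF : ∀ D, Fam D ↔ Cl M₀ D) (A : Set ℕ) (X : ℕ) :
    cn (SC M₀ X) A = (((Icc 1 X).filter fun D => Fam D ∧ D ∈ A).card : ℝ) := by
  unfold cn SC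
  rw [filter_filter]
  congr 2
  ext D
  simp only [mem_filter]
  rw [hF D]

theorem cn_univ (X : ℕ) : cn (SC M₀ X) (Set.univ : Set ℕ) = ((SC M₀ X).card : ℝ) := by
  unfold cn
  congr 2
  ext D
  simp

/-- the class has infinitely many elements -/
theorem card_tendsto (hM₀ : ∀ q ∈ M₀, q.Prime ∧ q % 9 = 1) :
    Tendsto (fun X => ((SC M₀ X).card : ℝ)) atTop atTop := by
  obtain ⟨c, hc, X₀, h⟩ := Pool.Agent.R432.JG.low hM₀
  have h2 : Filter.Tendsto (fun X : ℕ => c * X / Real.sqrt (Real.log X)) Filter.atTop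
      Filter.atTop := by
    have h3 : Filter.Tendsto (fun X : ℕ => c * Real.sqrt X) Filter.atTop Filter.atTop :=
      (Real.tendsto_sqrt_atTop.comp tendsto_natCast_atTop_atTop).const_mul_atTop hc
    refine Filter.tendsto_atTop_mono' _ ?_ h3
    filter_upwards [Filter.eventually_ge_atTop 2] with X hX
    have hX1 : (1 : ℝ) < X := by exact_mod_cast hX
    have hl : 0 < Real.log X := Real.log_pos hX1
    have hs : 0 < Real.sqrt (Real.log X) := Real.sqrt_pos.2 hl
    rw [le_div_iff₀ hs, mul_assoc, ← Real.sqrt_mul (by positivity)]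
    refine mul_le_mul_of_nonneg_left ?_ hc.le
    rw [Real.sqrt_le_left (by positivity)]
    have h4 : Real.log X ≤ X := (Real.log_le_sub_one_of_pos (by positivity)).trans (by linarith)
    nlinarith
  refine Filter.tendsto_atTop_mono' _ ?_ h2
  filter_upwards [Filter.eventually_ge_atTop X₀] with X hX
  exact h X hX

end Run7.h460.QD.Q
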