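import Pool.Agent.Run7.h460.QD.Sub
import Pool.Agent.R432.JG.Law
import Pool.Agent.R432.JG.Common

/-!
# The law over the rational numbers, including the `D` which are not prime to the multipliers

The joint law of the starting project R432/JG (`pat_aux (law_cnt hM)`) is for the squarefree `D` of the
class which are prime to the primes dividing the multipliers. Here the `D` are not subject to this
condition: the class is divided according to the common factor of `D` and the multipliers.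
-/

set_option autoImplicit false

open scoped Classical

namespace Run7.h460.QD.Q

open Finset Filter Topology
open Run7.h460.JL.Mix
open Run7.h460.QD
open Pool.Agent.Y703.CX (c3)
open Pool.Agent.Y703.CT (Cls NoSplit)
open Pool.Agent.R432.JG (Cl cl_iff twN law_cnt pat_aux ev_pos)
open Pool.Agent.R413.MQ.Bin (cnt cnt_card cnt_congr)

/-- classes of numbers modulo cubes -/
abbrev Ve : Type := ℕ →₀ ZMod 3

/-- the class of `n` -/
noncomputable def U (n : ℕ) : Ve := n.factorization.mapRange (fun k : ℕ => (k : ZMod 3)) Nat.cast_zero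

/-- the cube-free representative -/
noncomputable def nv (v : Ve) : ℕ := v.prod fun p a => p ^ a.val

/-- the number does not split -/
def G (v : Ve) : Prop := NoSplit (nv v)

/-- the allowed multipliers -/
def ok (v : Ve) : Prop := ∀ p ∈ v.support, p.Prime ∧ p % 9 = 1

/-- the class, up to `X` -/
noncomputable def SC (M : Finset ℕ) (X : ℕ) : Finset ℕ := (Icc 1 X).filter fun D => Cl M D

theorem ok_zero : ok 0 := fun p hp => by simp at hp

theorem ok_add (v w : Ve) (hv : ok v) (hw : ok w) : ok (v + w) := by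
  intro p hp
  rcases Finset.mem_union.1 (Finsupp.support_add hp) with h | h
  · exact hv p h
  · exact hw p h

theorem U_apply (n p : ℕ) : U n p = ((n.factorization p : ℕ) : ZMod 3) := rfl

theorem U_mul {a b : ℕ} (ha : a ≠ 0) (hb : b ≠ 0) : U (a * b) = U a + U b := by
  ext p
  rw [Finsupp.add_apply, U_apply, U_apply, U_apply, Nat.factorization_mul ha hb, Finsupp.add_apply]
  push_cast
  rfl

theorem nv_eq {v : Ve} {s : Finset ℕ} (h : v.support ⊆ s) : nv v = ∏ p ∈ s, p ^ (v p).val := by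
  unfold nv
  exact Finsupp.prod_of_support_subset v h _ fun p _ => by simp

theorem U_of_not_dvd {D p : ℕ} (h : ¬ p ∣ D) : U D p = 0 := by
  rw [U_apply, Nat.factorization_eq_zero_of_not_dvd h, Nat.cast_zero]

theorem U_support {D : ℕ} : (U D).support ⊆ D.primeFactors := by
  intro p hp
  rw [Finsupp.mem_support_iff, U_apply] at hp
  rw [← Nat.support_factorization, Finsupp.mem_support_iff]
  intro h
  rw [h, Nat.cast_zero] at hp
  exact hp rfl

theorem nv_tw {M : Finset ℕ} {D : ℕ} (hD : Cl M D) {v : Ve} (hv : v.support ⊆ M) :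
    nv (U D + v) = twN D M fun l => v l.1 := by
  obtain ⟨hsq, -, hnd⟩ := hD
  have hdis : Disjoint D.primeFactors M := by
    rw [disjoint_left]
    intro p h1 h2
    exact hnd p h2 (Nat.dvd_of_mem_primeFactors h1)
  have hs : (U D + v).support ⊆ D.primeFactors ∪ M :=
    (Finsupp.support_add).trans (union_subset_union U_support hv)
  rw [nv_eq hs, prod_union hdis]
  unfold twN
  congr 1
  · conv_rhs => rw [← Nat.prod_primeFactors_of_squarefree hsq]
    refine prod_congr rfl fun p hp => ?_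
    have hpM : p ∉ M := fun h => (disjoint_left.1 hdis) hp h
    have h0 : v p = 0 := by
      by_contra h
      exact hpM (hv (Finsupp.mem_support_iff.2 h))
    have hpp := Nat.prime_of_mem_primeFactors hp
    have h1 : D.factorization p = 1 := by
      have h2 := (Nat.squarefree_iff_factorization_le_one hsq.ne_zero).1 hsq p
      have h3 := hpp.factorization_pos_of_dvd hsq.ne_zero (Nat.dvd_of_mem_primeFactors hp)
      omega
    rw [Finsupp.add_apply, h0, add_zero, U_apply, h1]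
    have : (((1 : ℕ) : ZMod 3)).val = 1 := by decide
    rw [this, pow_one]
  · rw [← Finset.prod_coe_sort M fun p => p ^ ((U D + v) p).val]
    refine prod_congr rfl fun i _ => ?_
    rw [Finsupp.add_apply, U_of_not_dvd (hnd i.1 i.2), zero_add]

section split

variable {M₀ M : Finset ℕ}

theorem prod_nine {g : Finset ℕ} (h : ∀ q ∈ g, q.Prime ∧ q % 9 = 1) : (∏ p ∈ g, p) % 9 = 1 := by
  have h1 : (∏ p ∈ g, p) ≡ 1 [MOD 9] := by
    induction g using Finset.induction_on with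
    | empty => rfl
    | insert a s ha ih =>
      rw [Finset.prod_insert ha]
      have h3 : a ≡ 1 [MOD 9] := (h a (mem_insert_self a s)).2
      have h5 := h3.mul (ih fun q hq => h q (mem_insert_of_mem hq))
      rwa [mul_one] at h5
  exact h1

theorem dvd_prod_iff {g : Finset ℕ} (h : ∀ q ∈ g, q.Prime ∧ q % 9 = 1) {p : ℕ} (hp : p.Prime) :
    p ∣ ∏ q ∈ g, q ↔ p ∈ g := by
  rw [hp.prime.dvd_finsetProd_iff]
  constructor
  · rintro ⟨q, hq, hd⟩
    rw [(Nat.prime_dvd_prime_iff_eq hp (h q hq).1).1 hd]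
    exact hq
  · exact fun hq => ⟨p, hq, dvd_rfl⟩

/-- the class of the product -/
theorem cl_mul (hM : ∀ q ∈ M, q.Prime ∧ q % 9 = 1) (h0 : M₀ ⊆ M) {g : Finset ℕ} (hg : g ⊆ M \ M₀)
    {D : ℕ} (hD : Cl M D) : Cl M₀ ((∏ p ∈ g, p) * D) := by
  have hg' : ∀ q ∈ g, q.Prime ∧ q % 9 = 1 := fun q hq => hM q (mem_sdiff.1 (hg hq)).1
  rw [cl_iff] at hD ⊢
  obtain ⟨hsq, h3, h1, h8, hnd, q, hq, hq2, hqD, hall⟩ := hD
  have h9 := prod_nine hg'
  have hmod : ((∏ p ∈ g, p) * D) % 9 = D % 9 := by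
    rw [Nat.mul_mod, h9, one_mul, Nat.mod_mod]
  have hcop : Nat.Coprime (∏ p ∈ g, p) D := by
    apply Nat.Coprime.prod_left
    intro p hp
    exact ((hg' p hp).1.coprime_iff_not_dvd).2 (hnd p (mem_sdiff.1 (hg hp)).1)
  refine ⟨(Nat.squarefree_mul hcop).2 ⟨Pool.Agent.R432.JG.sq_prod fun p hp => (hg' p hp).1, hsq⟩,
    fun h => ?_, by rwa [hmod], by rwa [hmod], fun l hl hd => ?_, q, hq, hq2, hqD.mul_left _,
    fun p hp hd hne => ?_⟩
  · have h4 : ((∏ p ∈ g, p) * D) % 3 = 0 := Nat.mod_eq_zero_of_dvd h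
    have h5 : D % 3 ≠ 0 := fun h5 => h3 (Nat.dvd_of_mod_eq_zero h5)
    omega
  · have hlp := (hM l (h0 hl)).1
    rcases (Nat.Prime.dvd_mul hlp).1 hd with h | h
    · exact (mem_sdiff.1 (hg ((dvd_prod_iff hg' hlp).1 h))).2 hl
    · exact hnd l (h0 hl) h
  · rcases (Nat.Prime.dvd_mul hp).1 hd with h | h
    · have h5 := (hg' p ((dvd_prod_iff hg' hp).1 h)).2
      omega
    · exact hall p hp h hne

theorem filter_mul (hM : ∀ q ∈ M, q.Prime ∧ q % 9 = 1) {g : Finset ℕ} (hg : g ⊆ M \ M₀)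
    {D : ℕ} (hD : Cl M D) : ((M \ M₀).filter fun p => p ∣ (∏ p ∈ g, p) * D) = g := by
  have hg' : ∀ q ∈ g, q.Prime ∧ q % 9 = 1 := fun q hq => hM q (mem_sdiff.1 (hg hq)).1
  ext p
  rw [mem_filter]
  constructor
  · rintro ⟨h1, h2⟩
    have hp := (hM p (mem_sdiff.1 h1).1).1
    rcases (Nat.Prime.dvd_mul hp).1 h2 with h | h
    · exact (dvd_prod_iff hg' hp).1 h
    · exact absurd h (hD.2.2 p (mem_sdiff.1 h1).1)
  · intro h
    exact ⟨hg h, ((dvd_prod_iff hg' (hg' p h).1).2 h).mul_right _⟩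

/-- the class of the quotient -/
theorem cl_div (hM : ∀ q ∈ M, q.Prime ∧ q % 9 = 1) {D : ℕ} (hD : Cl M₀ D) :
    ∃ D', D = (∏ p ∈ (M \ M₀).filter fun p => p ∣ D, p) * D' ∧ Cl M D' := by
  set g := (M \ M₀).filter fun p => p ∣ D with hgd
  have hg : g ⊆ M \ M₀ := filter_subset _ _
  have hg' : ∀ q ∈ g, q.Prime ∧ q % 9 = 1 := fun q hq => hM q (mem_sdiff.1 (hg hq)).1
  have hdvd : (∏ p ∈ g, p) ∣ D := by
    apply Finset.prod_primes_dvd
    · intro p hp
      exact (hg' p hp).1.prime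
    · intro p hp
      rw [hgd, mem_filter] at hp
      exact hp.2
  obtain ⟨D', hD'⟩ := hdvd
  refine ⟨D', hD', ?_⟩
  rw [cl_iff] at hD ⊢
  obtain ⟨hsq, h3, h1, h8, hnd, q, hq, hq2, hqD, hall⟩ := hD
  have h9 := prod_nine hg'
  have hmod : D % 9 = D' % 9 := by
    rw [hD', Nat.mul_mod, h9, one_mul, Nat.mod_mod]
  have hdd : D' ∣ D := Dvd.intro_left _ hD'.symm
  refine ⟨hsq.squarefree_of_dvd hdd, fun h => h3 (h.trans hdd), by rwa [← hmod], by rwa [← hmod],
    fun l hl hd => ?_, q, hq, hq2, ?_, fun p hp hd hne => hall p hp (hd.trans hdd) hne⟩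
  · by_cases hl0 : l ∈ M₀
    · exact hnd l hl0 (hd.trans hdd)
    · have hlp := (hM l hl).1
      have hlg : l ∈ g := by
        rw [hgd, mem_filter]
        exact ⟨mem_sdiff.2 ⟨hl, hl0⟩, hd.trans hdd⟩
      have h4 : l * l ∣ D := by
        rw [hD']
        exact mul_dvd_mul (Finset.dvd_prod_of_mem _ hlg) hd
      have h5 := hsq l h4
      exact hlp.one_lt.ne' (Nat.isUnit_iff.1 h5)
  · rw [hD'] at hqD
    rcases (Nat.Prime.dvd_mul hq).1 hqD with h | h
    · have h5 := (hg' q ((dvd_prod_iff hg' hq).1 h)).2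
      omega
    · exact h

/-- the partition of the class -/
theorem split_count (hM : ∀ q ∈ M, q.Prime ∧ q % 9 = 1) (h0 : M₀ ⊆ M) (P : ℕ → Prop) (X : ℕ) :
    ((SC M₀ X).filter P).card =
      ∑ g ∈ (M \ M₀).powerset, cnt (Cl M) (fun D => P ((∏ p ∈ g, p) * D)) (X / ∏ p ∈ g, p) := by
  have hmaps : Set.MapsTo (fun D => (M \ M₀).filter fun p => p ∣ D) ((SC M₀ X).filter P : Finset ℕ)
      ((M \ M₀).powerset : Finset (Finset ℕ)) := by
    intro D _
    rw [mem_coe, mem_powerset]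
    exact filter_subset _ _
  rw [card_eq_sum_card_fiberwise hmaps]
  refine sum_congr rfl fun g hg => ?_
  rw [mem_powerset] at hg
  have hg' : ∀ q ∈ g, q.Prime ∧ q % 9 = 1 := fun q hq => hM q (mem_sdiff.1 (hg hq)).1
  have hpos : 0 < ∏ p ∈ g, p := prod_pos fun p hp => (hg' p hp).1.pos
  unfold cnt
  refine card_nbij' (fun D => D / ∏ p ∈ g, p) (fun D => (∏ p ∈ g, p) * D) ?_ ?_ ?_ ?_
  · intro D hD
    rw [mem_coe, mem_filter, mem_filter, SC, mem_filter, mem_Icc] at hD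
    obtain ⟨⟨⟨⟨h1, h2⟩, h3⟩, h4⟩, h5⟩ := hD
    obtain ⟨D', hD', hC⟩ := cl_div (M := M) (M₀ := M₀) hM h3
    rw [h5] at hD'
    have e : D / ∏ p ∈ g, p = D' := by
      rw [hD', Nat.mul_div_cancel_left _ hpos]
    rw [mem_coe, mem_filter, mem_Icc]
    show (1 ≤ D / _ ∧ D / _ ≤ _) ∧ Cl M (D / ∏ p ∈ g, p) ∧
      P ((∏ p ∈ g, p) * (D / ∏ p ∈ g, p))
    rw [e]
    refine ⟨⟨Nat.one_le_iff_ne_zero.2 hC.1.ne_zero, ?_⟩, hC, ?_⟩
    · rw [Nat.le_div_iff_mul_le hpos, mul_comm, ← hD']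
      exact h2
    · rw [← hD']
      exact h4
  · intro D hD
    rw [mem_coe, mem_filter, mem_Icc] at hD
    obtain ⟨⟨h1, h2⟩, h3, h4⟩ := hD
    rw [mem_coe, mem_filter, mem_filter, SC, mem_filter, mem_Icc]
    show (((1 ≤ (∏ p ∈ g, p) * D ∧ (∏ p ∈ g, p) * D ≤ X) ∧ Cl M₀ ((∏ p ∈ g, p) * D)) ∧
      P ((∏ p ∈ g, p) * D)) ∧ ((M \ M₀).filter fun p => p ∣ (∏ p ∈ g, p) * D) = g
    refine ⟨⟨⟨⟨Nat.mul_pos hpos h1, ?_⟩, cl_mul hM h0 hg h3⟩, h4⟩, filter_mul hM hg h3⟩
    rw [mul_comm]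
    exact (Nat.le_div_iff_mul_le hpos).1 h2
  · intro D hD
    rw [mem_coe, mem_filter, mem_filter, SC, mem_filter, mem_Icc] at hD
    obtain ⟨⟨⟨⟨h1, h2⟩, h3⟩, h4⟩, h5⟩ := hD
    obtain ⟨D', hD', hC⟩ := cl_div (M := M) (M₀ := M₀) hM h3
    rw [h5] at hD'
    exact Nat.mul_div_cancel' ⟨D', hD'⟩
  · intro D _
    exact Nat.mul_div_cancel_left _ hpos

end split

/-- ratios of sums -/
theorem ratio_sum {ι : Type*} (I : Finset ι) {a b : ι → ℕ → ℝ} {L : ℝ} (hI : I.Nonempty)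
    (hb : ∀ i ∈ I, ∀ᶠ X in atTop, 0 < b i X)
    (h : ∀ i ∈ I, Tendsto (fun X => a i X / b i X) atTop (𝓝 L)) :
    Tendsto (fun X => (∑ i ∈ I, a i X) / ∑ i ∈ I, b i X) atTop (𝓝 L) := by
  rw [Metric.tendsto_atTop']
  intro ε hε
  have h1 : ∀ᶠ X in atTop, ∀ i ∈ I, 0 < b i X ∧ |a i X / b i X - L| < ε / 2 := by
    rw [eventually_all_finset]
    intro i hi
    have h2 := (Metric.tendsto_nhds.1 (h i hi)) (ε / 2) (by positivity)
    filter_upwards [hb i hi, h2] with X h3 h4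
    rw [Real.dist_eq] at h4
    exact ⟨h3, h4⟩
  obtain ⟨N, hN⟩ := eventually_atTop.1 h1
  refine ⟨N, fun X hX => ?_⟩
  have h2 := hN X hX.le
  have hB : 0 < ∑ i ∈ I, b i X := sum_pos (fun i hi => (h2 i hi).1) hI
  rw [Real.dist_eq]
  have e : (∑ i ∈ I, a i X) / (∑ i ∈ I, b i X) - L =
      (∑ i ∈ I, (a i X - L * b i X)) / ∑ i ∈ I, b i X := by
    rw [sum_sub_distrib, ← mul_sum]
    field_simp
  rw [e, abs_div, abs_of_pos hB, div_lt_iff₀ hB]
  refine (abs_sum_le_sum_abs _ _).trans_lt ?_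
  have h3 : ∀ i ∈ I, |a i X - L * b i X| ≤ ε / 2 * b i X := by
    intro i hi
    obtain ⟨h4, h5⟩ := h2 i hi
    have e2 : a i X - L * b i X = (a i X / b i X - L) * b i X := by
      field_simp
    rw [e2, abs_mul, abs_of_pos h4]
    exact mul_le_mul_of_nonneg_right h5.le h4.le
  refine (sum_le_sum h3).trans_lt ?_
  rw [← mul_sum]
  have : ε / 2 * ∑ i ∈ I, b i X < ε * ∑ i ∈ I, b i X := by
    apply mul_lt_mul_of_pos_right _ hB
    linarith
  exact this

theorem tendsto_div {k : ℕ} (hk : 0 < k) : Tendsto (fun X : ℕ => X / k) atTop atTop := by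
  refine tendsto_atTop.2 fun b => ?_
  filter_upwards [eventually_ge_atTop (b * k)] with X hX
  exact (Nat.le_div_iff_mul_le hk).2 hX

theorem res_inj {M : Finset ℕ} {v w : Ve} (hv : v.support ⊆ M) (hw : w.support ⊆ M)
    (h : (fun l : {l : ℕ // l ∈ M} => v l.1) = fun l => w l.1) : v = w := by
  ext p
  by_cases hp : p ∈ M
  · exact congrFun h ⟨p, hp⟩
  · have h1 : v p = 0 := by
      by_contra h1
      exact hp (hv (Finsupp.mem_support_iff.2 h1))
    have h2 : w p = 0 := by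
      by_contra h2
      exact hp (hw (Finsupp.mem_support_iff.2 h2))
    rw [h1, h2]

/-- **The law.** -/
theorem law_main {M₀ : Finset ℕ} (hM₀ : ∀ q ∈ M₀, q.Prime ∧ q % 9 = 1) (P Q : Finset Ve)
    (hP : ∀ v ∈ P, ok v) (hQ : ∀ v ∈ Q, ok v) (hPQ : Disjoint P Q) :
    Tendsto (fun X => cn (SC M₀ X) {D | (∀ v ∈ P, G (U D + v)) ∧ ∀ v ∈ Q, ¬ G (U D + v)} /
      ((SC M₀ X).card : ℝ)) atTop (𝓝 (c3 ^ P.card * (1 - c3) ^ Q.card)) := by
  set M : Finset ℕ := M₀ ∪ (P ∪ Q).biUnion Finsupp.support with hMd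
  have h0 : M₀ ⊆ M := subset_union_left
  have hsup : ∀ v ∈ P ∪ Q, v.support ⊆ M := fun v hv =>
    (subset_biUnion_of_mem Finsupp.support hv).trans subset_union_right
  have hM : ∀ q ∈ M, q.Prime ∧ q % 9 = 1 := by
    intro q hq
    rcases mem_union.1 hq with h | h
    · exact hM₀ q h
    · obtain ⟨v, hv, h1⟩ := mem_biUnion.1 h
      rcases mem_union.1 hv with h2 | h2
      · exact hP v h2 q h1
      · exact hQ v h2 q h1
  set I := (M \ M₀).powerset with hI
  have e1 : ∀ X, cn (SC M₀ X) {D | (∀ v ∈ P, G (U D + v)) ∧ ∀ v ∈ Q, ¬ G (U D + v)} =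
      ∑ g ∈ I, (cnt (Cl M) (fun D => (∀ v ∈ P, G (U ((∏ p ∈ g, p) * D) + v)) ∧
        ∀ v ∈ Q, ¬ G (U ((∏ p ∈ g, p) * D) + v)) (X / ∏ p ∈ g, p) : ℝ) := by
    intro X
    refine (cn_eq (SC M₀ X) {D | (∀ v ∈ P, G (U D + v)) ∧ ∀ v ∈ Q, ¬ G (U D + v)}
      (fun D => (∀ v ∈ P, G (U D + v)) ∧ ∀ v ∈ Q, ¬ G (U D + v)) (fun D _ => Iff.rfl)).trans ?_
    have h := split_count hM h0 (fun D => (∀ v ∈ P, G (U D + v)) ∧ ∀ v ∈ Q, ¬ G (U D + v)) X
    have h' : ((SC M₀ X).filter fun D => (∀ v ∈ P, G (U D + v)) ∧ ∀ v ∈ Q, ¬ G (U D + v)).card =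
        ∑ g ∈ I, cnt (Cl M) (fun D => (∀ v ∈ P, G (U ((∏ p ∈ g, p) * D) + v)) ∧
          ∀ v ∈ Q, ¬ G (U ((∏ p ∈ g, p) * D) + v)) (X / ∏ p ∈ g, p) := by
      rw [hI, ← h]
      congr 1
      ext D
      simp
    rw [h']
    push_cast
    rfl
  have e2 : ∀ X, ((SC M₀ X).card : ℝ) =
      ∑ g ∈ I, (cnt (Cl M) (fun _ => True) (X / ∏ p ∈ g, p) : ℝ) := by
    intro X
    have h := split_count hM h0 (fun _ => True) X
    have h' : (SC M₀ X).card = ∑ g ∈ I, cnt (Cl M) (fun _ => True) (X / ∏ p ∈ g, p) := by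
      rw [hI, ← h]
      congr 1
      ext D
      simp
    rw [h']
    push_cast
    rfl
  simp only [e1, e2]
  have hgp : ∀ g ∈ I, 0 < ∏ p ∈ g, p := fun g hg => prod_pos fun p hp =>
    (hM p (mem_sdiff.1 (mem_powerset.1 hg hp)).1).1.pos
  refine ratio_sum I (a := fun g X => (cnt (Cl M) (fun D => (∀ v ∈ P, G (U ((∏ p ∈ g, p) * D) + v)) ∧
        ∀ v ∈ Q, ¬ G (U ((∏ p ∈ g, p) * D) + v)) (X / ∏ p ∈ g, p) : ℝ))
    (b := fun g X => (cnt (Cl M) (fun _ => True) (X / ∏ p ∈ g, p) : ℝ))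
    ⟨∅, empty_mem_powerset _⟩ (fun g hg => ?_) (fun g hg => ?_)
  · have h1 := (tendsto_div (hgp g hg)).eventually (ev_pos hM)
    filter_upwards [h1] with X hX
    have e : cnt (Cl M) (fun _ => True) (X / ∏ p ∈ g, p) =
        ((Icc 1 (X / ∏ p ∈ g, p)).filter fun D => Cl M D).card := by
      refine cnt_card fun D => ?_
      rw [mem_filter, and_iff_left trivial]
    rw [e]
    exact hX
  · have hgM : g ⊆ M \ M₀ := mem_powerset.1 hg
    have hUg : (U (∏ p ∈ g, p)).support ⊆ M := by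
      refine U_support.trans ?_
      rw [Nat.primeFactors_prod fun p hp => (hM p (mem_sdiff.1 (hgM hp)).1).1]
      exact fun p hp => (mem_sdiff.1 (hgM hp)).1
    let r : Ve → ({l : ℕ // l ∈ M} → ZMod 3) := fun v l => (U (∏ p ∈ g, p) + v) l.1
    have hsup2 : ∀ v ∈ P ∪ Q, (U (∏ p ∈ g, p) + v).support ⊆ M := fun v hv =>
      (Finsupp.support_add).trans (union_subset hUg (hsup v hv))
    have hr : ∀ v ∈ P ∪ Q, ∀ w ∈ P ∪ Q, r v = r w → v = w := fun v hv w hw h =>
      add_left_cancel (res_inj (hsup2 v hv) (hsup2 w hw) h)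
    have hkey : ∀ D, Cl M D → ∀ v ∈ P ∪ Q, (G (U ((∏ p ∈ g, p) * D) + v) ↔
        NoSplit (twN D M (r v))) := by
      intro D hD v hv
      have e3 : U ((∏ p ∈ g, p) * D) + v = U D + (U (∏ p ∈ g, p) + v) := by
        rw [U_mul (hgp g hg).ne' hD.1.ne_zero]
        abel
      unfold G
      rw [e3, nv_tw hD (hsup2 v hv)]
    have h2 := pat_aux (law_cnt hM) (Q.image r) (P.image r) (by
      rw [disjoint_left]
      intro i h1 h2
      obtain ⟨v, hv, rfl⟩ := mem_image.1 h1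
      obtain ⟨w, hw, he⟩ := mem_image.1 h2
      have h3 := hr w (mem_union_right _ hw) v (mem_union_left _ hv) he
      rw [h3] at hw
      exact disjoint_left.1 hPQ hv hw)
    rw [card_image_of_injOn fun v hv w hw h => hr v (mem_union_left _ hv) w (mem_union_left _ hw) h,
      card_image_of_injOn fun v hv w hw h =>
        hr v (mem_union_right _ hv) w (mem_union_right _ hw) h] at h2
    refine (h2.comp (tendsto_div (hgp g hg))).congr fun X => ?_
    simp only [Function.comp_apply]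
    congr 2
    refine cnt_congr (fun D hD => ?_) _
    constructor
    · rintro ⟨a1, a2⟩
      refine ⟨fun v hv => (hkey D hD v (mem_union_left _ hv)).2 (a1 _ (mem_image_of_mem r hv)),
        fun v hv h => a2 _ (mem_image_of_mem r hv) ((hkey D hD v (mem_union_right _ hv)).1 h)⟩
    · rintro ⟨a1, a2⟩
      refine ⟨fun i hi => ?_, fun i hi h => ?_⟩
      · obtain ⟨v, hv, rfl⟩ := mem_image.1 hi
        exact (hkey D hD v (mem_union_left _ hv)).1 (a1 v hv)
      · obtain ⟨v, hv, rfl⟩ := mem_image.1 hi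
        exact a2 v hv ((hkey D hD v (mem_union_right _ hv)).2 h)

theorem c3_lt : c3 < 1 := Pool.Agent.Y461.CX.t_C3.2.2.1

theorem law {M₀ : Finset ℕ} (hM₀ : ∀ q ∈ M₀, q.Prime ∧ q % 9 = 1) : Law (SC M₀) U G ok c3 where
  ne := by
    filter_upwards [ev_pos hM₀] with X hX
    rw [← card_pos]
    exact_mod_cast hX
  c0 := by
    have := Pool.Agent.R432.JG.c3_gt
    linarith
  c1 := c3_lt
  law := law_main hM₀

end Run7.h460.QD.Q
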