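import Pool.Agent.Run7.h460.QD.CubeP
import Pool.Agent.R432.JG.GalK

/-!
# All the twists by the primes of a finite set at the same time
-/

set_option autoImplicit false

open scoped Classical

namespace Run7.h460.QD.Q

open Finset Filter Topology
open Run7.h460.JL.Mix
open Run7.h460.QD
open Pool.Agent.Y703.CX (c3)
open Pool.Agent.Y703.CT (Cls NoSplit)
open Pool.Agent.R432.JG (Cl cl_iff twN tw_cls Pre pre_of fac_tw)

attribute [-instance] Finsupp.instDecidableEq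

theorem fac_cf (n : ℕ) :
    (cf n).factorization = n.factorization.mapRange (fun e => e % 3) (by simp) := by
  have h : cf n = (n.factorization.mapRange (fun e => e % 3) (by simp)).prod (· ^ ·) := by
    unfold cf
    rw [Finsupp.prod_mapRange_index (fun a => pow_zero a)]
  rw [h]
  refine Nat.prod_pow_factorization_eq_self fun p hp => ?_
  have h1 := Finsupp.support_mapRange hp
  rw [Nat.support_factorization] at h1
  exact Nat.prime_of_mem_primeFactors h1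

theorem cf_ne {n : ℕ} (hn : n ≠ 0) : cf n ≠ 0 := by
  obtain ⟨r, -, h⟩ := cf_spec hn
  intro h0
  rw [h0, zero_mul] at h
  exact hn h

theorem cf_dvd {n : ℕ} (hn : n ≠ 0) : cf n ∣ n := by
  obtain ⟨r, -, h⟩ := cf_spec hn
  exact Dvd.intro _ h.symm

theorem U_cf (n : ℕ) : U (cf n) = U n := by
  ext p
  rw [U_apply, U_apply, fac_cf, Finsupp.mapRange_apply]
  exact ZMod.natCast_mod _ 3

theorem IsNine.cf_mult {n : ℕ} (h : IsNine n) : IsMult (cf n) := by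
  refine ⟨cf_ne h.1, fun p hp hd => ?_, fun p hp hd => h.2 p hp (hd.trans (cf_dvd h.1))⟩
  have h1 := (hp.pow_dvd_iff_le_factorization (cf_ne h.1)).1 hd
  rw [fac_cf, Finsupp.mapRange_apply] at h1
  have h2 := Nat.mod_lt (n.factorization p) (by norm_num : 3 > 0)
  omega

theorem cf_mul_cf {a b : ℕ} (ha : a ≠ 0) (hb : b ≠ 0) : cf (a * cf b) = cf (a * b) := by
  rw [← nv_U (a * cf b), ← nv_U (a * b), U_mul ha (cf_ne hb), U_mul ha hb, U_cf]

theorem cn_le {S : Finset ℕ} {A B : Set ℕ} (h : ∀ D ∈ S, D ∈ A → D ∈ B) : cn S A ≤ cn S B := by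
  unfold cn
  exact_mod_cast card_le_card (fun D hD => by
    rw [mem_filter] at hD ⊢
    exact ⟨hD.1, h D hD.1 hD.2⟩)

section tw

variable {M₀ : Finset ℕ}

/-- the product of powers of the primes of the set -/
def pp (M₀ : Finset ℕ) (t : {l : ℕ // l ∈ M₀} → ZMod 3) : ℕ :=
  ∏ i : {l : ℕ // l ∈ M₀}, i.1 ^ (t i).val

theorem pp_nine (hM₀ : ∀ q ∈ M₀, q.Prime ∧ q % 9 = 1) (t : {l : ℕ // l ∈ M₀} → ZMod 3) :
    IsNine (pp M₀ t) := by
  refine ⟨prod_ne_zero_iff.2 fun i _ => pow_ne_zero _ (hM₀ i.1 i.2).1.ne_zero,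
    fun p hp hd => ?_⟩
  obtain ⟨i, -, hi⟩ := (hp.prime.dvd_finsetProd_iff _).1 hd
  have h1 := hp.dvd_of_dvd_pow hi
  rw [(Nat.prime_dvd_prime_iff_eq hp (hM₀ i.1 i.2).1).1 h1]
  exact (hM₀ i.1 i.2).2

theorem U_pp (hM₀ : ∀ q ∈ M₀, q.Prime ∧ q % 9 = 1) (t : {l : ℕ // l ∈ M₀} → ZMod 3) (p : ℕ) :
    U (pp M₀ t) p = if h : p ∈ M₀ then t ⟨p, h⟩ else 0 := by
  have h1 := fac_tw (D := 1) (fun q hq => (hM₀ q hq).1) one_ne_zero t p
  unfold twN at h1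
  rw [one_mul] at h1
  rw [U_apply]
  unfold pp
  rw [h1, Nat.factorization_one]
  split_ifs with h
  · simp
  · simp

/-- the twists of the cube-free part -/
theorem tw_all (hM₀ : ∀ q ∈ M₀, q.Prime ∧ q % 9 = 1) {D n : ℕ} (hD : Cl M₀ D) (hn : IsNine n)
    (hcop : ∀ l ∈ M₀, ¬ l ∣ n) :
    Cls (cf (D * n)) ∧ Pre (cf (D * n)) M₀ ∧ ∀ t : {l : ℕ // l ∈ M₀} → ZMod 3,
      twN (cf (D * n)) M₀ t = cf (D * (n * pp M₀ t)) := by
  have hD' : Cl ∅ D := ⟨hD.1, hD.2.1, fun l hl => absurd hl (notMem_empty l)⟩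
  have hDn : D * n ≠ 0 := mul_ne_zero hD.1.ne_zero hn.1
  have hnd : ∀ l ∈ M₀, ¬ l ∣ D * n := by
    intro l hl hd
    rcases (Nat.Prime.dvd_mul (hM₀ l hl).1).1 hd with h | h
    · exact hD.2.2 l hl h
    · exact hcop l hl h
  refine ⟨cls_cf hD' hn, ⟨fun l hl => (hM₀ l hl).1, fun l hl => (hM₀ l hl).2, fun l hl hd =>
    hnd l hl (hd.trans (cf_dvd hDn))⟩, fun t => ?_⟩
  have h0 : pp M₀ t ≠ 0 := (pp_nine hM₀ t).1
  have hdis : Disjoint (U (D * n)).support (U (pp M₀ t)).support := by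
    rw [disjoint_left]
    intro p h1 h2
    rw [Finsupp.mem_support_iff] at h1 h2
    rw [U_pp hM₀] at h2
    by_cases hp : p ∈ M₀
    · exact h1 (U_of_not_dvd (hnd p hp))
    · rw [dif_neg hp] at h2
      exact h2 rfl
  rw [← mul_assoc, ← nv_U (D * n * pp M₀ t), U_mul hDn h0]
  unfold nv
  rw [Finsupp.prod_add_index_of_disjoint hdis]
  unfold twN
  congr 1
  · exact (nv_U _).symm
  · have h3 : (U (pp M₀ t)).support ⊆ M₀ := by
      intro p hp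
      rw [Finsupp.mem_support_iff, U_pp hM₀] at hp
      by_contra h
      rw [dif_neg h] at hp
      exact hp rfl
    have h4 := nv_eq h3
    unfold nv at h4
    rw [h4, ← Finset.prod_coe_sort M₀ fun p => p ^ (U (pp M₀ t) p).val]
    refine prod_congr rfl fun i _ => ?_
    rw [U_pp hM₀, dif_pos i.2]

/-- all the multipliers -/
noncomputable def RR (M₀ T : Finset ℕ) : Finset ℕ :=
  (T ×ˢ (univ : Finset ({l : ℕ // l ∈ M₀} → ZMod 3))).image fun q => cf (q.1 * pp M₀ q.2)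

theorem RR_card (hM₀ : ∀ q ∈ M₀, q.Prime ∧ q % 9 = 1) {T : Finset ℕ}
    (hT : ∀ t ∈ T, IsMult t ∧ ∀ l ∈ M₀, ¬ l ∣ t) :
    (RR M₀ T).card = T.card * 3 ^ M₀.card := by
  unfold RR
  rw [card_image_of_injOn, card_product, card_univ, Fintype.card_fun, ZMod.card,
    Fintype.card_coe]
  rintro ⟨s, t⟩ hs ⟨s', t'⟩ hs' he
  rw [mem_coe, mem_product] at hs hs'
  have he' : cf (s * pp M₀ t) = cf (s' * pp M₀ t') := he
  have h1 : U s + U (pp M₀ t) = U s' + U (pp M₀ t') := by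
    rw [← U_mul (hT s hs.1).1.1 (pp_nine hM₀ t).1, ← U_mul (hT s' hs'.1).1.1 (pp_nine hM₀ t').1,
      ← U_cf, he', U_cf]
  have h2 : t = t' := by
    funext l
    have h3 := DFunLike.congr_fun h1 l.1
    rw [Finsupp.add_apply, Finsupp.add_apply, U_of_not_dvd ((hT s hs.1).2 l.1 l.2),
      U_of_not_dvd ((hT s' hs'.1).2 l.1 l.2), zero_add, zero_add, U_pp hM₀, U_pp hM₀, dif_pos l.2,
      dif_pos l.2] at h3
    exact h3
  rw [h2] at h1 ⊢
  have h4 := U_inj (hT s hs.1).1 (hT s' hs'.1).1 (add_right_cancel h1)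
  rw [h4]

theorem RR_mult (hM₀ : ∀ q ∈ M₀, q.Prime ∧ q % 9 = 1) {T : Finset ℕ} (hT : ∀ t ∈ T, IsMult t) :
    ∀ r ∈ RR M₀ T, IsMult r := by
  intro r hr
  unfold RR at hr
  obtain ⟨q, hq, rfl⟩ := mem_image.1 hr
  rw [mem_product] at hq
  exact ((hT q.1 hq.1).nine.mul (pp_nine hM₀ q.2)).cf_mult

/-- the good `D`: all the twists by the primes of `M₀` do not split -/
def AllGood (M₀ : Finset ℕ) (n : ℕ) : Prop :=
  ∀ t : {l : ℕ // l ∈ M₀} → ZMod 3, NoSplit (twN (cf n) M₀ t)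

/-- **Mixing for all the twists at the same time.** -/
theorem mix_nf (hM₀ : ∀ q ∈ M₀, q.Prime ∧ q % 9 = 1) {T : Finset ℕ}
    (hT : ∀ t ∈ T, IsMult t ∧ ∀ l ∈ M₀, ¬ l ∣ t) {A : Set ℕ} {δ : ℝ} (hA : UD (SC M₀) A δ) {ε : ℝ}
    (hε : 0 < ε) {F : Finset ℕ} (hF : ∀ m ∈ F, IsMult m ∧ ∀ l ∈ M₀, ¬ l ∣ m)
    (hc : 4 * ((T.card : ℝ) * 3 ^ M₀.card) ^ 2 / ε ^ 2 < F.card) :
    ∃ m ∈ F, UD (SC M₀) {D | D ∈ A ∧ ∀ t ∈ T, AllGood M₀ (D * (m * t))}
      (c3 ^ (T.card * 3 ^ M₀.card) * δ - ε) := by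
  have hcard := RR_card hM₀ hT
  obtain ⟨m, hm, h⟩ := mix_nat hM₀ (RR_mult hM₀ fun t ht => (hT t ht).1) (subset_refl (RR M₀ T))
    hA hε (F := F) (fun m hm => (hF m hm).1) (by
      rw [hcard]
      push_cast
      exact hc)
  rw [Nat.sub_self, pow_zero, mul_one, hcard] at h
  refine ⟨m, hm, UD.congr' h fun X D hD hDA => ⟨hDA.1, fun t ht u => ?_⟩⟩
  have hD' := mem_SC hD
  have hcop : ∀ l ∈ M₀, ¬ l ∣ m * t := by
    intro l hl hd
    rcases (Nat.Prime.dvd_mul (hM₀ l hl).1).1 hd with h | h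
    · exact (hF m hm).2 l hl h
    · exact (hT t ht).2 l hl h
  rw [(tw_all hM₀ hD' ((hF m hm).1.nine.mul (hT t ht).1.nine) hcop).2.2 u]
  have hmem : cf (t * pp M₀ u) ∈ RR M₀ T := by
    unfold RR
    exact mem_image.2 ⟨(t, u), mem_product.2 ⟨ht, mem_univ _⟩, rfl⟩
  have h1 := (hDA.2 _ hmem).2 hmem
  have ht0 := (hT t ht).1.1
  have hm0 := (hF m hm).1.1
  have hp0 := (pp_nine hM₀ u).1
  rw [← mul_assoc, cf_mul_cf (mul_ne_zero hD'.1.ne_zero hm0) (mul_ne_zero ht0 hp0)] at h1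
  have e : D * (m * t * pp M₀ u) = D * m * (t * pp M₀ u) := by ring
  rw [e]
  exact h1

/-- **The exact law for all the twists at the same time.** -/
theorem law_nf (hM₀ : ∀ q ∈ M₀, q.Prime ∧ q % 9 = 1) {T : Finset ℕ}
    (hT : ∀ t ∈ T, IsMult t ∧ ∀ l ∈ M₀, ¬ l ∣ t) :
    Tendsto (fun X => cn (SC M₀ X) {D | ∀ t ∈ T, AllGood M₀ (D * t)} / ((SC M₀ X).card : ℝ)) atTop
      (𝓝 (c3 ^ (T.card * 3 ^ M₀.card))) := by
  have h := law_nat hM₀ (RR_mult hM₀ fun t ht => (hT t ht).1) (subset_refl (RR M₀ T))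
  rw [Nat.sub_self, pow_zero, mul_one, RR_card hM₀ hT] at h
  refine h.congr fun X => ?_
  congr 1
  refine cn_congr fun D hD => ?_
  have hD' := mem_SC hD
  have key : ∀ t ∈ T, ∀ u : {l : ℕ // l ∈ M₀} → ZMod 3,
      twN (cf (D * t)) M₀ u = cf (D * cf (t * pp M₀ u)) := by
    intro t ht u
    rw [(tw_all hM₀ hD' (hT t ht).1.nine (hT t ht).2).2.2 u, cf_mul_cf hD'.1.ne_zero
      (mul_ne_zero (hT t ht).1.1 (pp_nine hM₀ u).1)]
  constructor
  · intro h1 t ht u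
    have hmem : cf (t * pp M₀ u) ∈ RR M₀ T := by
      unfold RR
      exact mem_image.2 ⟨(t, u), mem_product.2 ⟨ht, mem_univ _⟩, rfl⟩
    rw [key t ht u]
    exact (h1 _ hmem).2 hmem
  · intro h1 r hr
    refine ⟨fun _ => hr, fun _ => ?_⟩
    have hr' := hr
    unfold RR at hr'
    obtain ⟨q, hq, rfl⟩ := mem_image.1 hr'
    rw [mem_product] at hq
    rw [← key q.1 hq.1 q.2]
    exact h1 q.1 hq.1 q.2

end tw

end Run7.h460.QD.Q
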