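import Pool.Agent.R432.C6

/-!
# The points over `K(∛d_1, …, ∛d_n)` modulo the points over `K`

A version of the theorem `pts` of the starting file `Pool/Agent/R432/C6.lean`, with the same proof, without a
condition on the trivial twist.
-/

set_option autoImplicit false
set_option linter.unusedSectionVars false

open WeierstrassCurve

namespace Run7.h460.QD.Rel

open Pool.Agent.R432.C
open Pool.Agent.TH841.NF (Sc tF tF_some tF_add)
open Pool.Agent.Y710.CTE (fin_pre co co_inj)
open scoped Classical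

/-- the action of the Galois group -/
theorem SG {K F : Type} [Field K] [Field F] [Algebra K F] (D : K) (g : F ≃ₐ[K] F) :
    Sc (g : F →+* F) 1 (ED (algebraMap K F D)) (ED (algebraMap K F D)) :=
  sED _ one_ne_zero (by
    rw [one_pow, mul_one]
    exact (g.commutes D).symm)

/-- **The points over `F = K(∛d_1, …, ∛d_n)`** modulo those over `K`: if the nontrivial twists have
finitely many points over `K`, then `3^n P` minus the trace of `P` takes finitely many values. -/
theorem pts_rel {K F : Type} [Field K] [CharZero K] [Field F] [CharZero F] [Algebra K F]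
    [FiniteDimensional K F] [IsGalois K F] {ω : K} (hω : ω ^ 2 + ω + 1 = 0) {I : Type} [Fintype I]
    (d : I → K) (x : I → F) (hd : ∀ i, d i ≠ 0) (hx : ∀ i, x i ^ 3 = algebraMap K F (d i))
    (hgen : ∀ S : Subfield F, (∀ k : K, algebraMap K F k ∈ S) → (∀ i, x i ∈ S) → S = ⊤)
    {D : K} (hD : D ≠ 0)
    (hyp : ∀ t : I → ZMod 3, t ≠ 0 → Finite (ED (D * ∏ i, d i ^ (t i).val)).toAffine.Point) :
    (Set.range fun P : (ED (algebraMap K F D)).toAffine.Point =>
      (3 ^ Fintype.card I : ℕ) • P - ∑ g : F ≃ₐ[K] F, tH (SG D g) P).Finite := by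
  have hx0 : ∀ i, x i ≠ 0 := by
    intro i h0
    have h1 := hx i
    rw [h0, zero_pow (by norm_num)] at h1
    exact hd i ((map_eq_zero _).1 h1.symm)
  obtain ⟨u, hu⟩ : ∃ u : (I → ZMod 3) → F, ∀ t, u t = ∏ i, x i ^ (t i).val := ⟨_, fun T => rfl⟩
  have hune : ∀ t, u t ≠ 0 := fun t => by
    rw [hu]
    exact Finset.prod_ne_zero_iff.2 fun i _ => pow_ne_zero _ (hx0 i)
  have hu3 : ∀ t, u t ^ 3 = algebraMap K F (∏ i, d i ^ (t i).val) := by
    intro t
    rw [hu, ← Finset.prod_pow, map_prod]
    refine Finset.prod_congr rfl fun i _ => ?_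
    rw [map_pow, ← hx i, ← pow_mul, ← pow_mul, mul_comm]
  set z : F := algebraMap K F ω with hzdef
  have hz : z ^ 2 + z + 1 = 0 := by
    rw [hzdef, ← map_pow, ← map_add, ← map_one (algebraMap K F), ← map_add, hω, map_zero]
  have hz3 := cube_of hz
  have hDF : algebraMap K F D ≠ 0 := (map_ne_zero _).2 hD
  -- the maps
  have S1 : ∀ t, Sc (RingHom.id F) (u t) (ED (algebraMap K F D))
      (ED (algebraMap K F (D * ∏ i, d i ^ (t i).val))) := fun t =>
    sED _ (hune t) (by rw [RingHom.id_apply, map_mul, hu3])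
  have S2 : ∀ t, Sc (RingHom.id F) (u t)⁻¹ (ED (algebraMap K F (D * ∏ i, d i ^ (t i).val)))
      (ED (algebraMap K F D)) := fun t =>
    sED _ (inv_ne_zero (hune t)) (by
      rw [RingHom.id_apply, map_mul, ← hu3, mul_assoc, ← mul_pow, mul_inv_cancel₀ (hune t), one_pow,
        mul_one])
  have Sg : ∀ (b : K) (g : F ≃ₐ[K] F), Sc (g : F →+* F) 1 (ED (algebraMap K F b))
      (ED (algebraMap K F b)) := fun b g =>
    sED _ one_ne_zero (by
      rw [one_pow, mul_one]
      exact (g.commutes b).symm)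
  have Sa : ∀ b : K, Sc (algebraMap K F) 1 (ED b) (ED (algebraMap K F b)) := fun b =>
    sED _ one_ne_zero (by rw [one_pow, mul_one])
  let R : ∀ t : I → ZMod 3, (ED (algebraMap K F D)).toAffine.Point →
      (ED (algebraMap K F (D * ∏ i, d i ^ (t i).val))).toAffine.Point :=
    fun t P => ∑ g : F ≃ₐ[K] F, tH (Sg _ g) (tH (S1 t) P)
  have hRinv : ∀ t P (h : F ≃ₐ[K] F), tH (Sg _ h) (R t P) = R t P := by
    intro t P h
    show tH (Sg _ h) (∑ g : F ≃ₐ[K] F, tH (Sg _ g) (tH (S1 t) P)) =
      ∑ g : F ≃ₐ[K] F, tH (Sg _ g) (tH (S1 t) P)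
    rw [map_sum, ← Equiv.sum_comp (Equiv.mulLeft h)
      (fun g => tH (Sg (D * ∏ i, d i ^ (t i).val) g) (tH (S1 t) P))]
    refine Finset.sum_congr rfl fun g _ => ?_
    exact tH_tH (Sg _ g) (Sg _ h) (Sg _ (h * g)) (fun y => rfl)
      (by rw [map_one, mul_one]) _
  -- descent
  have hdesc : ∀ (b : K) (Q : (ED (algebraMap K F b)).toAffine.Point),
      (∀ g : F ≃ₐ[K] F, tH (Sg b g) Q = Q) → ∃ Q0 : (ED b).toAffine.Point, tH (Sa b) Q0 = Q := by
    intro b Q hQ
    rcases Q with _ | ⟨X, Y, h⟩
    · exact ⟨0, rfl⟩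
    · have h1 : ∀ g : F ≃ₐ[K] F, g X = X ∧ g Y = Y := by
        intro g
        have h2 := hQ g
        obtain ⟨h3, e3⟩ := tH_some (Sg b g) X Y h
        rw [e3, Affine.Point.some.injEq, one_pow, one_pow, mul_one, mul_one] at h2
        exact h2
      obtain ⟨X0, rfl⟩ := (IsGalois.mem_range_algebraMap_iff_fixed (F := K) X).2 fun g => (h1 g).1
      obtain ⟨Y0, rfl⟩ := (IsGalois.mem_range_algebraMap_iff_fixed (F := K) Y).2 fun g => (h1 g).2
      have hns : (ED b).toAffine.Nonsingular X0 Y0 := by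
        have h2 := (Pool.Agent.TH841.NF.ns_iff (Sa b) X0 Y0).1
        apply h2
        rw [one_pow, one_pow, mul_one, mul_one]
        exact h
      refine ⟨.some X0 Y0 hns, ?_⟩
      obtain ⟨h3, e3⟩ := tH_some (Sa b) X0 Y0 hns
      rw [e3, Affine.Point.some.injEq, one_pow, one_pow, mul_one, mul_one]
      exact ⟨rfl, rfl⟩
  have hRfin : ∀ t, t ≠ 0 → (Set.range (R t)).Finite := by
    intro t ht
    have := hyp t ht
    refine (Set.finite_range (tH (Sa (D * ∏ i, d i ^ (t i).val)))).subset ?_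
    rintro Q ⟨P, rfl⟩
    exact hdesc _ _ (hRinv t P)
  -- the sum
  have hsum : ∀ P, ∑ t, tH (S2 t) (R t P) = 3 ^ Fintype.card I • P := by
    intro P
    have h1 : ∀ t, tH (S2 t) (R t P) =
        ∑ g : F ≃ₐ[K] F, tH (S2 t) (tH (Sg _ g) (tH (S1 t) P)) := fun t => map_sum _ _ _
    rw [Finset.sum_congr rfl fun t _ => h1 t, Finset.sum_comm, Finset.sum_eq_single 1]
    · have h2 : ∀ t, tH (S2 t) (tH (Sg _ (1 : F ≃ₐ[K] F)) (tH (S1 t) P)) = P := by
        intro t
        have S3 : Sc (RingHom.id F) (u t) (ED (algebraMap K F D))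
          (ED (algebraMap K F (D * ∏ i, d i ^ (t i).val))) := S1 t
        rw [tH_tH (S1 t) (Sg _ 1) S3 (fun y => rfl) (by
          rw [mul_one]
          rfl)]
        have S4 : Sc (RingHom.id F) 1 (ED (algebraMap K F D)) (ED (algebraMap K F D)) :=
          sED _ one_ne_zero (by rw [RingHom.id_apply, one_pow, mul_one])
        rw [tH_tH S3 (S2 t) S4 (fun y => rfl) (by
          rw [RingHom.id_apply, mul_inv_cancel₀ (hune t)])]
        rcases P with _ | ⟨X, Y, h⟩
        · rfl
        · obtain ⟨h3, e3⟩ := tH_some S4 X Y h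
          rw [e3, Affine.Point.some.injEq]
          simp
      rw [Finset.sum_congr rfl fun t _ => h2 t, Finset.sum_const, Finset.card_univ,
        Fintype.card_fun, ZMod.card]
    · intro g _ hg
      have hex : ∀ i, ∃ c : ZMod 3, g (x i) = z ^ c.val * x i := by
        intro i
        apply cube_roots hz
        rw [← map_pow, hx i, AlgEquiv.commutes]
      choose s hs using hex
      obtain ⟨i0, hi0⟩ : ∃ i, s i ≠ 0 := by
        by_contra hcon
        push Not at hcon
        apply hg
        have h5 := hgen (RingHom.eqLocusField (g : F →+* F) (RingHom.id F))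
          (fun y => g.commutes y) (fun i => by
            show g (x i) = x i
            rw [hs i, hcon i, ZMod.val_zero, pow_zero, one_mul])
        ext y
        have h7 : y ∈ RingHom.eqLocusField (g : F →+* F) (RingHom.id F) := by rw [h5]; trivial
        exact h7
      have hgz : g z = z := g.commutes ω
      have hz0 : z ≠ 0 := by
        intro h
        rw [h] at hz
        norm_num at hz
      have hgu : ∀ t, g (u t) = z ^ (∑ i, s i * t i).val * u t := by
        intro t
        rw [hu, map_prod, pow_sum_val hz3, ← Finset.prod_mul_distrib]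
        refine Finset.prod_congr rfl fun i _ => ?_
        rw [map_pow, hs i, mul_pow, pow_mul_val hz3]
      have SS : ∀ c : ZMod 3, Sc (g : F →+* F) (z ^ c.val) (ED (algebraMap K F D))
          (ED (algebraMap K F D)) := fun c =>
        sED _ (pow_ne_zero _ hz0) (by
          have h1 : (z ^ c.val) ^ 3 = 1 := by rw [← pow_mul, mul_comm, pow_mul, hz3, one_pow]
          rw [h1, mul_one]
          exact (g.commutes D).symm)
      rw [Finset.sum_congr rfl (g := fun t => tH (SS (∑ i, s i * t i)) P) (fun t _ => ?_)]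
      · exact twist_sum hDF hz _ s hi0 SS P
      · have S3 : Sc (g : F →+* F) (z ^ (∑ i, s i * t i).val * u t) (ED (algebraMap K F D))
            (ED (algebraMap K F (D * ∏ i, d i ^ (t i).val))) :=
          sED _ (mul_ne_zero (pow_ne_zero _ hz0) (hune t)) (by
            have h1 : (z ^ (∑ i, s i * t i).val) ^ 3 = 1 := by
              rw [← pow_mul, mul_comm, pow_mul, hz3, one_pow]
            have h2 : (g : F →+* F) (algebraMap K F D) = algebraMap K F D := g.commutes D
            rw [mul_pow, h1, one_mul, hu3, h2, map_mul])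
        rw [tH_tH (S1 t) (Sg _ g) S3 (fun y => rfl) (by
          rw [mul_one]
          exact (hgu t).symm)]
        exact tH_tH S3 (S2 t) (SS _) (fun y => rfl) (by
          rw [RingHom.id_apply, mul_assoc, mul_inv_cancel₀ (hune t), mul_one]) P
    · intro h
      exact absurd (Finset.mem_univ _) h
  -- the trivial twist
  have hzero : ∀ P, tH (S2 0) (R 0 P) = ∑ g : F ≃ₐ[K] F, tH (SG D g) P := by
    intro P
    have h1 : tH (S2 0) (R 0 P) = ∑ g : F ≃ₐ[K] F, tH (S2 0) (tH (Sg _ g) (tH (S1 0) P)) :=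
      map_sum _ _ _
    have hu0 : u 0 = 1 := by
      rw [hu]
      refine Finset.prod_eq_one fun i _ => ?_
      rw [Pi.zero_apply, ZMod.val_zero, pow_zero]
    rw [h1]
    refine Finset.sum_congr rfl fun g _ => ?_
    have S3 : Sc (g : F →+* F) 1 (ED (algebraMap K F D))
        (ED (algebraMap K F (D * ∏ i, d i ^ ((0 : I → ZMod 3) i).val))) :=
      sED _ one_ne_zero (by
        have h2 : (g : F →+* F) (algebraMap K F D) = algebraMap K F D := g.commutes D
        rw [one_pow, mul_one, h2, map_mul, ← hu3, hu0, one_pow, mul_one])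
    rw [tH_tH (S1 0) (Sg _ g) S3 (fun y => rfl) (by
      rw [mul_one, hu0, map_one])]
    exact tH_tH S3 (S2 0) (SG D g) (fun y => rfl) (by
      rw [RingHom.id_apply, hu0, inv_one, mul_one]) P
  -- conclusion
  have h1 : (Set.range fun P => fun t : {t : I → ZMod 3 // t ≠ 0} => R t.1 P).Finite := by
    refine (Set.Finite.pi' (t := fun t : {t : I → ZMod 3 // t ≠ 0} => Set.range (R t.1))
      fun t => hRfin t.1 t.2).subset ?_
    rintro _ ⟨P, rfl⟩ t
    exact ⟨P, rfl⟩
  refine (h1.image fun r => ∑ t : {t : I → ZMod 3 // t ≠ 0}, tH (S2 t.1) (r t)).subset ?_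
  rintro Q ⟨P, rfl⟩
  refine ⟨fun t => R t.1 P, ⟨P, rfl⟩, ?_⟩
  show ∑ t : {t : I → ZMod 3 // t ≠ 0}, tH (S2 t.1) (R t.1 P) =
    (3 ^ Fintype.card I : ℕ) • P - ∑ g : F ≃ₐ[K] F, tH (SG D g) P
  rw [← hsum P, ← hzero P, ← Finset.sum_erase_eq_sub (Finset.mem_univ (0 : I → ZMod 3))]
  symm
  refine Finset.sum_subtype (Finset.univ.erase (0 : I → ZMod 3)) (fun t => ?_)
    (fun t => tH (S2 t) (R t P))
  rw [Finset.mem_erase]
  exact ⟨fun h => h.1, fun h => ⟨h, Finset.mem_univ _⟩⟩

end Run7.h460.QD.Rel
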