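import Pool.Agent.Run7.h460.QD.Rel
import Pool.Agent.Run7.h460.QD.NumF

/-!
# Multiplicities of Artin representations of `ℚ(ω, ∛d_1, …, ∛d_n)` in the cubic twists
-/

set_option autoImplicit false

open WeierstrassCurve
open scoped TensorProduct Classical

namespace Run7.h460.QD.RepQ

open Pool.Agent.R432.C
open Pool.Agent.TH841.NF (Sc)

/-- an identity up to a finite group becomes an identity after tensoring with `ℂ` -/
theorem key {A : Type} [AddCommGroup A] {H : Type} [Fintype H] (a : H → (A →+ A)) (k : ℕ)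
    (hfin : (Set.range fun P : A => k • P - ∑ h, a h P).Finite) (x : ℂ ⊗[ℤ] A) :
    (k : ℂ) • x = ∑ h, LinearMap.baseChange ℂ (a h).toIntLinearMap x := by
  obtain ⟨φ, hφ⟩ : ∃ φ : A →+ A, ∀ P, φ P = k • P - ∑ h, a h P :=
    ⟨k • AddMonoidHom.id A - ∑ h, a h, fun P => by simp⟩
  have hfin' : Finite φ.range := by
    have h1 : (φ.range : Set A) = Set.range fun P : A => k • P - ∑ h, a h P := by
      ext y
      constructor
      · rintro ⟨P, rfl⟩
        exact ⟨P, (hφ P).symm⟩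
      · rintro ⟨P, rfl⟩
        exact ⟨P, hφ P⟩
    have h2 : (φ.range : Set A).Finite := by
      rw [h1]
      exact hfin
    exact h2.to_subtype
  set N := Nat.card φ.range with hN
  have hN0 : (N : ℂ) ≠ 0 := Nat.cast_ne_zero.2 Nat.card_pos.ne'
  have hNφ : ∀ P, N • φ P = 0 := by
    intro P
    have h1 : N • (⟨φ P, P, rfl⟩ : φ.range) = 0 := card_nsmul_eq_zero'
    have h2 := congrArg Subtype.val h1
    simpa using h2
  have h3 : ∀ y : ℂ ⊗[ℤ] A, (N : ℂ) •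
      ((k : ℂ) • y - ∑ h, LinearMap.baseChange ℂ (a h).toIntLinearMap y) = 0 := by
    intro y
    induction y using TensorProduct.induction_on with
    | zero => simp
    | tmul z P =>
      have e1 : ∀ h, LinearMap.baseChange ℂ (a h).toIntLinearMap (z ⊗ₜ[ℤ] P) =
          z ⊗ₜ[ℤ] a h P := fun h => LinearMap.baseChange_tmul _ _ _
      simp only [e1]
      rw [← TensorProduct.tmul_sum]
      have e2 : (k : ℂ) • (z ⊗ₜ[ℤ] P) = z ⊗ₜ[ℤ] (k • P) := by
        rw [TensorProduct.tmul_smul, Nat.cast_smul_eq_nsmul ℂ k]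
      rw [e2, ← TensorProduct.tmul_sub, ← hφ P, Nat.cast_smul_eq_nsmul ℂ N,
        ← TensorProduct.tmul_smul, hNφ, TensorProduct.tmul_zero]
    | add y z hy hz =>
      have e : (k : ℂ) • (y + z) - ∑ h, LinearMap.baseChange ℂ (a h).toIntLinearMap (y + z) =
          ((k : ℂ) • y - ∑ h, LinearMap.baseChange ℂ (a h).toIntLinearMap y) +
          ((k : ℂ) • z - ∑ h, LinearMap.baseChange ℂ (a h).toIntLinearMap z) := by
        simp only [map_add, Finset.sum_add_distrib, smul_add]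
        abel
      rw [e, smul_add, hy, hz, add_zero]
  exact sub_eq_zero.1 ((smul_eq_zero.1 (h3 x)).resolve_left hN0)

/-- The curve `E_D : y² + D y = x³` over `ℚ`. -/
def curve (D : ℕ) : WeierstrassCurve ℚ := ⟨0, 0, (D : ℚ), 0, 0⟩

section mult

variable (F : Type) [Field F] [CharZero F] (D : ℕ)

/-- The group `E_D(F)`. -/
def Pts : Type := ((curve D).baseChange F).toAffine.Point

noncomputable instance instPts : AddCommGroup (Pts F D) :=
  (inferInstance : AddCommGroup ((curve D).baseChange F).toAffine.Point)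

/-- The action of `g` in the Galois group on `E_D(F)`. -/
noncomputable def act (g : F ≃ₐ[ℚ] F) : Pts F D →+ Pts F D :=
  WeierstrassCurve.Affine.Point.map (W' := (curve D).toAffine) g.toAlgHom

/-- The complex vector space `E_D(F) ⊗ ℂ`. -/
def VE : Type := ℂ ⊗[ℤ] Pts F D

noncomputable instance instVE : AddCommGroup (VE F D) :=
  (inferInstance : AddCommGroup (ℂ ⊗[ℤ] Pts F D))

noncomputable instance instVE' : Module ℂ (VE F D) :=
  (inferInstance : Module ℂ (ℂ ⊗[ℤ] Pts F D))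

/-- The action of `g` on `E_D(F) ⊗ ℂ`. -/
noncomputable def gal (g : F ≃ₐ[ℚ] F) : VE F D →ₗ[ℂ] VE F D :=
  LinearMap.baseChange ℂ (act F D g).toIntLinearMap

/-- The space `Hom_G(ρ, E_D(F) ⊗ ℂ)`. -/
def HomG {V : Type} [AddCommGroup V] [Module ℂ V] (ρ : Representation ℂ (F ≃ₐ[ℚ] F) V) :
    Submodule ℂ (V →ₗ[ℂ] VE F D) where
  carrier := {f | ∀ (g : F ≃ₐ[ℚ] F) (v : V), f (ρ g v) = gal F D g (f v)}
  add_mem' := by
    intro f f' h h' g v
    rw [LinearMap.add_apply, LinearMap.add_apply, h g v, h' g v, map_add]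
  zero_mem' := by
    intro g v
    rw [LinearMap.zero_apply, LinearMap.zero_apply, map_zero]
  smul_mem' := by
    intro c f h g v
    rw [LinearMap.smul_apply, LinearMap.smul_apply, h g v, map_smul]

/-- The multiplicity `m_ρ(E_D) = dim Hom_G(ρ, E_D(F) ⊗ ℂ)`. -/
noncomputable def mult {V : Type} [AddCommGroup V] [Module ℂ V]
    (ρ : Representation ℂ (F ≃ₐ[ℚ] F) V) : Cardinal := Module.rank ℂ (HomG F D ρ)

end mult

section field

variable {F : Type} [Field F] [NumberField F]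

open IntermediateField

/-- the transport to the curve `ED` -/
theorem ST {K : Type} [Field K] [Algebra K F] (D : ℕ) :
    Sc (RingHom.id F) 1 ((curve D).baseChange F) (ED (algebraMap K F ((D : ℕ) : K))) where
  hu := one_ne_zero
  h1 := by simp [curve, ED, WeierstrassCurve.baseChange]
  h2 := by simp [curve, ED, WeierstrassCurve.baseChange]
  h3 := by simp [curve, ED, WeierstrassCurve.baseChange]
  h4 := by simp [curve, ED, WeierstrassCurve.baseChange]
  h6 := by simp [curve, ED, WeierstrassCurve.baseChange]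

theorem tH_inj {F1 F2 : Type} [Field F1] [Field F2] {ι : F1 →+* F2} {u : F2}
    {W : WeierstrassCurve F1} {W' : WeierstrassCurve F2} (S : Sc ι u W W') :
    Function.Injective (tH S) := by
  have hu := S.hu
  rintro (_ | ⟨x, y, h⟩) (_ | ⟨x', y', h'⟩) e
  · rfl
  · obtain ⟨h1, e1⟩ := tH_some S x' y' h'
    rw [e1] at e
    exact absurd e (by
      intro h2
      have h3 : (0 : W'.toAffine.Point) = _ := h2
      cases h3)
  · obtain ⟨h1, e1⟩ := tH_some S x y h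
    rw [e1] at e
    exact absurd e (by
      intro h2
      have h3 : _ = (0 : W'.toAffine.Point) := h2
      cases h3)
  · obtain ⟨h1, e1⟩ := tH_some S x y h
    obtain ⟨h2, e2⟩ := tH_some S x' y' h'
    rw [e1, e2, Affine.Point.some.injEq] at e
    have hx : x = x' := ι.injective (mul_right_cancel₀ (pow_ne_zero 2 hu) e.1)
    have hy : y = y' := ι.injective (mul_right_cancel₀ (pow_ne_zero 3 hu) e.2)
    subst hx hy
    rfl

theorem T_act {K : Type} [Field K] [Algebra ℚ K] [Algebra K F] [IsScalarTower ℚ K F] (D : ℕ)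
    (g : F ≃ₐ[K] F) (P : Pts F D) :
    tH (ST (K := K) D) (act F D (g.restrictScalars ℚ) P) =
      tH (Run7.h460.QD.Rel.SG ((D : ℕ) : K) g) (tH (ST (K := K) D) P) := by
  rcases P with _ | ⟨x, y, h⟩
  · change tH (ST (K := K) D) (act F D (g.restrictScalars ℚ) (0 : Pts F D)) =
      tH (Run7.h460.QD.Rel.SG ((D : ℕ) : K) g) (tH (ST (K := K) D) 0)
    rw [map_zero, map_zero, map_zero]
    exact map_zero _
  · obtain ⟨h1, e1⟩ := tH_some (ST (F := F) (K := K) D) x y h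
    obtain ⟨h2, e2⟩ := tH_some (Run7.h460.QD.Rel.SG ((D : ℕ) : K) g) _ _ h1
    have h3 : ∃ h3, act F D (g.restrictScalars ℚ) (Affine.Point.some x y h) =
        Affine.Point.some (g x) (g y) h3 := ⟨_, rfl⟩
    obtain ⟨h3, e3⟩ := h3
    obtain ⟨h4, e4⟩ := tH_some (ST (F := F) (K := K) D) _ _ h3
    rw [e1, e2, e3, e4, Affine.Point.some.injEq]
    simp

variable {ω : F} (hω : ω ^ 2 + ω + 1 = 0)

/-- the third root of unity in `ℚ(ω)` -/
def om (ω : F) : ℚ⟮ω⟯ := ⟨ω, mem_adjoin_simple_self ℚ ω⟩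

theorem om_gen (ω : F) (M : Subfield ℚ⟮ω⟯) (hM : om ω ∈ M) : M = ⊤ := by
  rw [eq_top_iff]
  rintro ⟨k, hk⟩ -
  induction hk using IntermediateField.adjoin_induction with
  | mem x hx =>
    rw [Set.mem_singleton_iff] at hx
    subst hx
    exact hM
  | algebraMap q =>
    have h1 := SubfieldClass.ratCast_mem M q
    have e : ((q : ℚ) : ℚ⟮ω⟯) = ⟨algebraMap ℚ F q, IntermediateField.algebraMap_mem _ q⟩ := by
      apply Subtype.ext
      simp
    rw [← e]
    exact h1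
  | add x y hx hy h1 h2 => exact M.add_mem h1 h2
  | inv x hx h1 => exact M.inv_mem h1
  | mul x y hx hy h1 h2 => exact M.mul_mem h1 h2

include hω in
theorem om_eq : om ω ^ 2 + om ω + 1 = 0 := by
  apply Subtype.ext
  exact hω

include hω in
/-- finitely many points over `ℚ(ω)` -/
theorem fin_K {n : ℕ} (hC : Pool.Agent.Y703.CT.Cls n) (hN : Pool.Agent.Y703.CT.NoSplit n) :
    Finite (ED ((n : ℕ) : ℚ⟮ω⟯)).toAffine.Point := by
  refine (Pool.Agent.R432.JG.all_goodK hC (S := ∅) ⟨fun l hl => absurd hl (Finset.notMem_empty l),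
    fun l hl => absurd hl (Finset.notMem_empty l), fun l hl => absurd hl (Finset.notMem_empty l)⟩
    (fun t => ?_) (om ω) (om_eq hω) (fun _ => 0) (fun l hl => absurd hl (Finset.notMem_empty l))
    (fun M h1 _ => om_gen ω M h1)).2.1
  unfold Pool.Agent.R432.JG.twN
  simpa using hN

/-- twists by cubes -/
theorem fin_cube {K : Type} [Field K] [CharZero K] {n r : ℕ} (hr : 0 < r)
    (h : Finite (ED ((n : ℕ) : K)).toAffine.Point) :
    Finite (ED ((n * r ^ 3 : ℕ) : K)).toAffine.Point := by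
  have hr0 : ((r : ℕ) : K) ≠ 0 := Nat.cast_ne_zero.2 hr.ne'
  have S : Sc (RingHom.id K) (((r : ℕ) : K))⁻¹ (ED ((n * r ^ 3 : ℕ) : K)) (ED ((n : ℕ) : K)) :=
    sED _ (inv_ne_zero hr0) (by
      rw [RingHom.id_apply]
      push_cast
      field_simp)
  exact Finite.of_injective _ (tH_inj S)

omit [NumberField F] in
/-- an automorphism which fixes `ω` is an automorphism over `ℚ(ω)` -/
theorem lift_g [Algebra ℚ F] (ω : F) (g : F ≃ₐ[ℚ] F) (hg : g ω = ω) :
    ∃ h : F ≃ₐ[ℚ⟮ω⟯] F, h.restrictScalars ℚ = g := by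
  have hfix : ∀ k : ℚ⟮ω⟯, g k = k := by
    rintro ⟨k, hk⟩
    show g k = k
    induction hk using IntermediateField.adjoin_induction with
    | mem x hx =>
      rw [Set.mem_singleton_iff] at hx
      rw [hx]
      exact hg
    | algebraMap q => exact g.commutes q
    | add x y hx hy h1 h2 => rw [map_add, h1, h2]
    | inv x hx h1 => rw [map_inv₀, h1]
    | mul x y hx hy h1 h2 => rw [map_mul, h1, h2]
  refine ⟨AlgEquiv.ofRingEquiv (f := g.toRingEquiv) fun k => hfix k, ?_⟩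
  ext x
  rfl

include hω in
/-- **The multiplicities are zero.** -/
theorem hom_zero {D : ℕ} (hD : D ≠ 0) {n : ℕ} (d : Fin n → ℕ) (hd : ∀ i, d i ≠ 0) (x : Fin n → F)
    (hx : ∀ i, x i ^ 3 = (d i : F))
    (hgen : ∀ S : Subfield F, ω ∈ S → (∀ i, x i ∈ S) → S = ⊤)
    (hyp : ∀ t : Fin n → ZMod 3, t ≠ 0 →
      Finite (ED ((D * ∏ i, d i ^ (t i).val : ℕ) : ℚ⟮ω⟯)).toAffine.Point)
    {V : Type} [AddCommGroup V] [Module ℂ V] (ρ : Representation ℂ (F ≃ₐ[ℚ] F) V)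
    (hρ : ∀ v : V, (∀ g : F ≃ₐ[ℚ] F, g ω = ω → ρ g v = v) → v = 0)
    (f : V →ₗ[ℂ] VE F D) (hf : ∀ (g : F ≃ₐ[ℚ] F) (v : V), f (ρ g v) = gal F D g (f v)) :
    f = 0 := by
  have hωK := om_eq hω
  have hgen' : ∀ S : Subfield F, (∀ k : ℚ⟮ω⟯, algebraMap ℚ⟮ω⟯ F k ∈ S) → (∀ i, x i ∈ S) →
      S = ⊤ := fun S h1 h2 => hgen S (h1 (om ω)) h2
  have hx' : ∀ i, x i ^ 3 = algebraMap ℚ⟮ω⟯ F ((d i : ℕ) : ℚ⟮ω⟯) := fun i => by
    rw [hx i, map_natCast]
  obtain ⟨hfd, hgal⟩ := gal3 (F := F) hωK (fun i => ((d i : ℕ) : ℚ⟮ω⟯)) x hx' hgen'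
  have hrel := Run7.h460.QD.Rel.pts_rel (F := F) hωK (fun i => ((d i : ℕ) : ℚ⟮ω⟯)) x
    (fun i => Nat.cast_ne_zero.2 (hd i)) hx' hgen' (D := ((D : ℕ) : ℚ⟮ω⟯))
    (Nat.cast_ne_zero.2 hD) (fun t ht => by
      have h1 := hyp t ht
      push_cast at h1
      exact h1)
  have hfin : (Set.range fun P : Pts F D => (3 ^ Fintype.card (Fin n) : ℕ) • P -
      ∑ h : F ≃ₐ[ℚ⟮ω⟯] F, act F D (h.restrictScalars ℚ) P).Finite := by
    refine Set.Finite.of_finite_image (f := tH (ST (F := F) (K := ℚ⟮ω⟯) D)) (hrel.subset ?_)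
      (tH_inj _).injOn
    rintro _ ⟨_, ⟨P, rfl⟩, rfl⟩
    refine ⟨tH (ST (F := F) (K := ℚ⟮ω⟯) D) P, ?_⟩
    have e1 : tH (ST (F := F) (K := ℚ⟮ω⟯) D) ((3 ^ Fintype.card (Fin n) : ℕ) • P -
        ∑ h : F ≃ₐ[ℚ⟮ω⟯] F, act F D (h.restrictScalars ℚ) P) =
        (3 ^ Fintype.card (Fin n) : ℕ) • tH (ST (F := F) (K := ℚ⟮ω⟯) D) P -
        tH (ST (F := F) (K := ℚ⟮ω⟯) D) (∑ h : F ≃ₐ[ℚ⟮ω⟯] F, act F D (h.restrictScalars ℚ) P) :=
      (map_sub _ _ _).trans (by
        congr 1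
        exact map_nsmul _ _ _)
    have e2 : tH (ST (F := F) (K := ℚ⟮ω⟯) D)
        (∑ h : F ≃ₐ[ℚ⟮ω⟯] F, act F D (h.restrictScalars ℚ) P) =
        ∑ h : F ≃ₐ[ℚ⟮ω⟯] F, tH (ST (F := F) (K := ℚ⟮ω⟯) D) (act F D (h.restrictScalars ℚ) P) :=
      map_sum _ _ _
    refine Eq.trans ?_ e1.symm
    rw [e2]
    exact congrArg (fun z => (3 ^ Fintype.card (Fin n) : ℕ) •
      tH (ST (F := F) (K := ℚ⟮ω⟯) D) P - z)
      (Finset.sum_congr rfl fun h _ => (T_act (K := ℚ⟮ω⟯) D h P).symm)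
  have hkey := key (fun h : F ≃ₐ[ℚ⟮ω⟯] F => act F D (h.restrictScalars ℚ))
    (3 ^ Fintype.card (Fin n)) hfin
  ext v
  have h1 := hkey (f v)
  have h2 : ∑ h : F ≃ₐ[ℚ⟮ω⟯] F, ρ (h.restrictScalars ℚ) v = 0 := by
    refine hρ _ fun g hg => ?_
    obtain ⟨h0, rfl⟩ := lift_g ω g hg
    rw [map_sum, ← Equiv.sum_comp (Equiv.mulLeft h0)
      (fun h : F ≃ₐ[ℚ⟮ω⟯] F => ρ (h.restrictScalars ℚ) v)]
    refine Finset.sum_congr rfl fun h _ => ?_
    have e : ((Equiv.mulLeft h0) h).restrictScalars ℚ =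
        (h0.restrictScalars ℚ) * (h.restrictScalars ℚ) := rfl
    rw [e, map_mul]
    rfl
  have h3 : ∑ h : F ≃ₐ[ℚ⟮ω⟯] F, LinearMap.baseChange ℂ
      (act F D (h.restrictScalars ℚ)).toIntLinearMap (f v) = 0 := by
    have h4 : ∀ h : F ≃ₐ[ℚ⟮ω⟯] F, LinearMap.baseChange ℂ
        (act F D (h.restrictScalars ℚ)).toIntLinearMap (f v) = f (ρ (h.restrictScalars ℚ) v) :=
      fun h => (hf _ v).symm
    rw [Finset.sum_congr rfl fun h _ => h4 h]
    exact (map_sum f _ Finset.univ).symm.trans (by rw [h2, map_zero]; rfl)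
  rw [h3] at h1
  exact (smul_eq_zero.1 h1).resolve_left (Nat.cast_ne_zero.2 (pow_ne_zero _ (by norm_num)))

include hω in
theorem mult_zero {D : ℕ} (hD : D ≠ 0) {n : ℕ} (d : Fin n → ℕ) (hd : ∀ i, d i ≠ 0)
    (x : Fin n → F) (hx : ∀ i, x i ^ 3 = (d i : F))
    (hgen : ∀ S : Subfield F, ω ∈ S → (∀ i, x i ∈ S) → S = ⊤)
    (hyp : ∀ t : Fin n → ZMod 3, t ≠ 0 →
      Finite (ED ((D * ∏ i, d i ^ (t i).val : ℕ) : ℚ⟮ω⟯)).toAffine.Point)
    {V : Type} [AddCommGroup V] [Module ℂ V] (ρ : Representation ℂ (F ≃ₐ[ℚ] F) V)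
    (hρ : ∀ v : V, (∀ g : F ≃ₐ[ℚ] F, g ω = ω → ρ g v = v) → v = 0) : mult F D ρ = 0 := by
  have : Subsingleton (HomG F D ρ) := by
    refine ⟨fun f f' => Subtype.ext ?_⟩
    rw [hom_zero hω hD d hd x hx hgen hyp ρ hρ f.1 f.2,
      hom_zero hω hD d hd x hx hgen hyp ρ hρ f'.1 f'.2]
  unfold mult
  exact rank_subsingleton' ℂ _

end field

end Run7.h460.QD.RepQ
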