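import Pool.Agent.Run7.h460.QD.Abs

/-!
# Independence along a sequence of multipliers

Let `A` be a set of positive upper density and `M` an infinite set of allowed multipliers. There are
different `u 0, u 1, ... ∈ M` such that for every `n` every pattern on the nonempty sums of
`u 0, ..., u (n - 1)` meets `A` in a set of positive upper density.
-/

set_option autoImplicit false

open scoped Classical

namespace Run7.h460.QD

open Finset Filter Topology
open Run7.h460.JL.Mix

variable {α V : Type*} [AddCommGroup V]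

/-- the pattern on the sums of the first `n` elements -/
def Pt (U : α → V) (G : V → Prop) (n : ℕ) (u : ℕ → V) (Z : Finset (Finset ℕ)) : Set α :=
  {D | ∀ T ⊆ range n, T.Nonempty → (G (U D + ∑ i ∈ T, u i) ↔ T ∈ Z)}

/-- the induction hypothesis -/
structure Inv (S : ℕ → Finset α) (U : α → V) (G : V → Prop) (M : Set V) (A : Set α) (n : ℕ)
    (u : ℕ → V) : Prop where
  mem : ∀ i < n, u i ∈ M
  inj : ∀ T ⊆ range n, ∀ T' ⊆ range n, ∑ i ∈ T, u i = ∑ i ∈ T', u i → T = T'
  lg : ∀ Z : Finset (Finset ℕ), Large S (A ∩ Pt U G n u Z)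

variable {S : ℕ → Finset α} {U : α → V} {G : V → Prop} {ok : V → Prop} {c : ℝ} {M : Set V}

theorem Inv.congr {A : Set α} {n : ℕ} {u v : ℕ → V} (h : Inv S U G M A n u)
    (huv : ∀ i < n, u i = v i) : Inv S U G M A n v := by
  have hW : ∀ T ⊆ range n, ∑ i ∈ T, u i = ∑ i ∈ T, v i := fun T hT =>
    sum_congr rfl fun i hi => huv i (mem_range.1 (hT hi))
  refine ⟨fun i hi => huv i hi ▸ h.mem i hi, fun T hT T' hT' he => ?_, fun Z => ?_⟩
  · rw [← hW T hT, ← hW T' hT'] at he
    exact h.inj T hT T' hT' he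
  · refine (h.lg Z).mono (Set.inter_subset_inter_right A fun D hD T hT hne => ?_)
    rw [← hW T hT]
    exact hD T hT hne

theorem Law.step (h : Law S U G ok c) (ok0 : ok 0) (okadd : ∀ v w, ok v → ok w → ok (v + w))
    (hM : M.Infinite) (hMok : ∀ v ∈ M, ok v) {A : Set α} {n : ℕ} {u : ℕ → V}
    (hI : Inv S U G M A n u) : ∃ m, Inv S U G M A (n + 1) (Function.update u n m) := by
  set QT : Finset (Finset ℕ) := (range n).powerset with hQT
  set R : Finset V := QT.image fun T => ∑ i ∈ T, u i with hRd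
  set PP := QT.powerset with hPP
  have hV : ∀ w ∈ PP, (w.image fun T => ∑ i ∈ T, u i) ⊆ R := fun w hw =>
    image_subset_image (mem_powerset.1 hw)
  have hnr : ∀ T ⊆ range n, n ∉ T := fun T hT h1 => lt_irrefl n (mem_range.1 (hT h1))
  have hokR : ∀ x ∈ R, ok x := by
    intro x hx
    obtain ⟨T, hT, rfl⟩ := mem_image.1 hx
    have hT' := mem_powerset.1 hT
    clear hT hx
    induction T using Finset.induction_on with
    | empty => rw [sum_empty]; exact ok0
    | insert a T ha ih =>
      rw [sum_insert ha]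
      refine okadd _ _ (hMok _ (hI.mem a (mem_range.1 (hT' (mem_insert_self a T))))) ?_
      exact ih fun i hi => hT' (mem_insert_of_mem hi)
  -- the exceptional elements
  have hfin : (⋃ v ∈ PP, ⋃ w ∈ PP, {m : V | (∀ x ∈ R, ok (m + x)) ∧
      ¬ Large S ((A ∩ Pt U G n u v) ∩ Ev U G m R (w.image fun T => ∑ i ∈ T, u i))}).Finite := by
    refine Set.Finite.biUnion PP.finite_toSet fun v _ =>
      Set.Finite.biUnion PP.finite_toSet fun w hw => ?_
    exact h.large_exc (hV w hw) (hI.lg v)
  set EX := ⋃ v ∈ PP, ⋃ w ∈ PP, {m : V | (∀ x ∈ R, ok (m + x)) ∧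
      ¬ Large S ((A ∩ Pt U G n u v) ∩ Ev U G m R (w.image fun T => ∑ i ∈ T, u i))} with hEX
  have hfin2 : (EX ∪ (((R ×ˢ R).image fun q => q.1 - q.2 : Finset V) : Set V)).Finite :=
    hfin.union (finite_toSet _)
  obtain ⟨m, hm1, hm2⟩ := hM.exists_notMem_finset hfin2.toFinset
  rw [Set.Finite.mem_toFinset] at hm2
  have hm4 : m ∉ EX := fun h1 => hm2 (Or.inl h1)
  have hm5 : ∀ x ∈ R, ∀ y ∈ R, x - y ≠ m := fun x hx y hy he => hm2 (Or.inr (by
    rw [mem_coe, mem_image]
    exact ⟨(x, y), mem_product.2 ⟨hx, hy⟩, he⟩))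
  refine ⟨m, ?_⟩
  have hW1 : ∀ T ⊆ range n, ∑ i ∈ T, Function.update u n m i = ∑ i ∈ T, u i := fun T hT =>
    sum_congr rfl fun i hi => Function.update_of_ne (fun h1 : i = n => hnr T hT (h1 ▸ hi)) _ _
  have hW2 : ∀ T ⊆ range n, ∑ i ∈ insert n T, Function.update u n m i =
      m + ∑ i ∈ T, u i := by
    intro T hT
    rw [sum_insert (hnr T hT), Function.update_self, hW1 T hT]
  have hokD : ∀ x ∈ R, ok (m + x) := fun x hx => okadd _ _ (hMok m hm1) (hokR x hx)
  have hsplit : ∀ T ⊆ range (n + 1), (T ⊆ range n) ∨ ∃ T' ⊆ range n, T = insert n T' := by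
    intro T hT
    by_cases hn : n ∈ T
    · right
      refine ⟨T.erase n, fun i hi => ?_, (insert_erase hn).symm⟩
      rw [mem_erase] at hi
      have := mem_range.1 (hT hi.2)
      exact mem_range.2 (by omega)
    · left
      intro i hi
      have h1 := mem_range.1 (hT hi)
      have h2 : i ≠ n := fun h2 => hn (h2 ▸ hi)
      exact mem_range.2 (by omega)
  have hRm : ∀ T ⊆ range n, ∑ i ∈ T, u i ∈ R := fun T hT =>
    mem_image.2 ⟨T, mem_powerset.2 hT, rfl⟩
  refine ⟨fun i hi => ?_, fun T hT T' hT' he => ?_, fun Z => ?_⟩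
  · rcases Nat.lt_succ_iff_lt_or_eq.1 hi with h1 | h1
    · rw [Function.update_of_ne h1.ne]
      exact hI.mem i h1
    · rw [h1, Function.update_self]
      exact hm1
  · rcases hsplit T hT with h1 | ⟨T1, h1, rfl⟩
    · rcases hsplit T' hT' with h2 | ⟨T2, h2, rfl⟩
      · rw [hW1 T h1, hW1 T' h2] at he
        exact hI.inj T h1 T' h2 he
      · rw [hW1 T h1, hW2 T2 h2] at he
        refine absurd ?_ (hm5 _ (hRm T h1) _ (hRm T2 h2))
        rw [he, add_sub_cancel_right]
    · rcases hsplit T' hT' with h2 | ⟨T2, h2, rfl⟩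
      · rw [hW2 T1 h1, hW1 T' h2] at he
        refine absurd ?_ (hm5 _ (hRm T' h2) _ (hRm T1 h1))
        rw [← he, add_sub_cancel_right]
      · rw [hW2 T1 h1, hW2 T2 h2] at he
        rw [hI.inj T1 h1 T2 h2 (add_left_cancel he)]
  · set v : Finset (Finset ℕ) := (range n).powerset.filter fun T => T ∈ Z with hv
    set w : Finset (Finset ℕ) := QT.filter fun T => insert n T ∈ Z with hw
    have hvP : v ∈ PP := mem_powerset.2 (filter_subset _ _)
    have hwP : w ∈ PP := mem_powerset.2 (filter_subset _ _)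
    have hlarge : Large S ((A ∩ Pt U G n u v) ∩
        Ev U G m R (w.image fun T => ∑ i ∈ T, u i)) := by
      by_contra hcon
      apply hm4
      rw [hEX]
      simp only [Set.mem_iUnion]
      exact ⟨v, hvP, w, hwP, hokD, hcon⟩
    refine hlarge.mono ?_
    rintro D' ⟨⟨a1, a2⟩, a3⟩
    refine ⟨a1, fun T hT hne => ?_⟩
    rcases hsplit T hT with h1 | ⟨T1, h1, rfl⟩
    · rw [hW1 T h1, a2 T h1 hne, hv, mem_filter, mem_powerset, and_iff_right h1]
    · have hT1 : T1 ∈ QT := mem_powerset.2 h1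
      rw [hW2 T1 h1, a3 _ (mem_image.2 ⟨T1, hT1, rfl⟩), mem_image]
      constructor
      · rintro ⟨T2, h2, he⟩
        rw [hw, mem_filter] at h2
        have h4 := mem_powerset.1 h2.1
        rw [← hI.inj T2 h4 T1 h1 he]
        exact h2.2
      · intro h2
        exact ⟨T1, mem_filter.2 ⟨hT1, h2⟩, rfl⟩

theorem Inv.zero {A : Set α} (hA : Large S A) (u : ℕ → V) : Inv S U G M A 0 u := by
  refine ⟨fun i hi => absurd hi (Nat.not_lt_zero i), fun T hT T' hT' _ => ?_, fun Z => ?_⟩
  · rw [range_zero, subset_empty] at hT hT'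
    rw [hT, hT']
  · refine hA.mono fun D hD => ⟨hD, fun T hT hne => ?_⟩
    rw [range_zero, subset_empty] at hT
    exact absurd hne (hT ▸ not_nonempty_empty)

/-- the sequence of the approximations -/
noncomputable def st {A : Set α} (hA : Large S A)
    (hs : ∀ (n : ℕ) (u : ℕ → V), Inv S U G M A n u →
      ∃ m, Inv S U G M A (n + 1) (Function.update u n m)) :
    (n : ℕ) → {u : ℕ → V // Inv S U G M A n u}
  | 0 => ⟨fun _ => 0, Inv.zero hA _⟩
  | n + 1 => ⟨Function.update (st hA hs n).1 n (hs n _ (st hA hs n).2).choose,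
      (hs n _ (st hA hs n).2).choose_spec⟩

theorem st_stable {A : Set α} (hA : Large S A)
    (hs : ∀ (n : ℕ) (u : ℕ → V), Inv S U G M A n u →
      ∃ m, Inv S U G M A (n + 1) (Function.update u n m)) (i k : ℕ) :
    (st hA hs (i + 1 + k)).1 i = (st hA hs (i + 1)).1 i := by
  induction k with
  | zero => rfl
  | succ k ih =>
    rw [← ih]
    show Function.update (st hA hs (i + 1 + k)).1 (i + 1 + k) _ i = _
    rw [Function.update_of_ne (by omega)]

/-- **Independence along a sequence.** -/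
theorem Law.sub (h : Law S U G ok c) (ok0 : ok 0) (okadd : ∀ v w, ok v → ok w → ok (v + w))
    (hM : M.Infinite) (hMok : ∀ v ∈ M, ok v) {A : Set α} (hA : Large S A) :
    ∃ u : ℕ → V, Function.Injective u ∧ (∀ i, u i ∈ M) ∧
      ∀ (n : ℕ) (Z : Finset (Finset ℕ)), Large S (A ∩ Pt U G n u Z) := by
  have hs : ∀ (n : ℕ) (u : ℕ → V), Inv S U G M A n u →
      ∃ m, Inv S U G M A (n + 1) (Function.update u n m) := fun n u hI =>
    h.step ok0 okadd hM hMok hI
  set u : ℕ → V := fun i => (st hA hs (i + 1)).1 i with hu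
  have hI : ∀ n, Inv S U G M A n u := by
    intro n
    refine (st hA hs n).2.congr fun i hi => ?_
    obtain ⟨k, rfl⟩ : ∃ k, n = i + 1 + k := ⟨n - (i + 1), by omega⟩
    exact st_stable hA hs i k
  refine ⟨u, ?_, fun i => (hI (i + 1)).mem i (by omega), fun n Z => (hI n).lg Z⟩
  intro i j hij
  have h1 := (hI (i + j + 1)).inj {i} (by
    rw [singleton_subset_iff, mem_range]
    omega) {j} (by
    rw [singleton_subset_iff, mem_range]
    omega) (by
    rw [sum_singleton, sum_singleton]
    exact hij)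
  exact singleton_injective h1

end Run7.h460.QD
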